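import Mathlib
import Pool.Agent.H353R2.Z2
import Pool.Agent.H813R3.Voj.Sf

set_option autoImplicit false

/-!
Counting integral quadratic polynomials `a X^2 + b X + c` (triples `(a, b, c)`) with given
discriminant in a box, and weighted sums over the box.
-/

namespace Pool.Agent.X124.MV

open Finset Pool.Agent.H813R3.Voj

/-- the integral triples with entries at most `N` in absolute value -/
noncomputable def box (N : ℕ) : Finset (ℤ × ℤ × ℤ) :=
  Finset.Icc (-(N : ℤ)) N ×ˢ (Finset.Icc (-(N : ℤ)) N ×ˢ Finset.Icc (-(N : ℤ)) N)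

lemma mem_box {N : ℕ} {u : ℤ × ℤ × ℤ} :
    u ∈ box N ↔ |u.1| ≤ N ∧ |u.2.1| ≤ N ∧ |u.2.2| ≤ N := by
  unfold box
  simp only [Finset.mem_product, Finset.mem_Icc, abs_le]

/-- the discriminant of `a X^2 + b X + c` -/
def ds (u : ℤ × ℤ × ℤ) : ℤ := u.2.1 ^ 2 - 4 * u.1 * u.2.2

lemma ds_le {N : ℕ} {u : ℤ × ℤ × ℤ} (hu : u ∈ box N) : (ds u).natAbs ≤ 5 * N ^ 2 := by
  rw [mem_box] at hu
  obtain ⟨h1, h2, h3⟩ := hu
  have hb : u.2.1 ^ 2 ≤ (N : ℤ) ^ 2 := by
    rw [← sq_abs]; exact pow_le_pow_left₀ (abs_nonneg _) h2 2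
  have hac : |u.1 * u.2.2| ≤ (N : ℤ) ^ 2 := by
    rw [abs_mul, sq]; exact mul_le_mul h1 h3 (abs_nonneg _) (by positivity)
  have hb0 : 0 ≤ u.2.1 ^ 2 := sq_nonneg _
  have h4 := abs_le.1 hac
  have h5 : |ds u| ≤ 5 * (N : ℤ) ^ 2 := by
    unfold ds
    rw [abs_le]
    constructor <;> nlinarith
  have h6 : ((ds u).natAbs : ℤ) ≤ ((5 * N ^ 2 : ℕ) : ℤ) := by
    rw [Int.natCast_natAbs]; push_cast; exact h5
  exact_mod_cast h6

/-- the divisors of a nonzero integer -/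
lemma card_dvd (m : ℤ) (hm : m ≠ 0) (A : Finset ℤ) (hA : ∀ a ∈ A, a ∣ m) :
    A.card ≤ 2 * m.natAbs.divisors.card := by
  classical
  have hsub : A ⊆ (m.natAbs.divisors.image fun d : ℕ => (d : ℤ)) ∪
      (m.natAbs.divisors.image fun d : ℕ => -(d : ℤ)) := by
    intro a ha
    have h1 : a.natAbs ∈ m.natAbs.divisors := by
      rw [Nat.mem_divisors]
      exact ⟨Int.natAbs_dvd_natAbs.2 (hA a ha), Int.natAbs_ne_zero.2 hm⟩
    rw [Finset.mem_union, Finset.mem_image, Finset.mem_image]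
    rcases Int.natAbs_eq a with h | h
    · exact Or.inl ⟨_, h1, h.symm⟩
    · exact Or.inr ⟨_, h1, h.symm⟩
  calc A.card ≤ _ := Finset.card_le_card hsub
    _ ≤ _ := Finset.card_union_le _ _
    _ ≤ m.natAbs.divisors.card + m.natAbs.divisors.card :=
        add_le_add Finset.card_image_le Finset.card_image_le
    _ = _ := by ring

/-- the number of polynomials with a given discriminant -/
theorem card_ds (ε : ℝ) (hε : 0 < ε) : ∃ C : ℝ, 0 < C ∧ ∀ N : ℕ, 1 ≤ N → ∀ n : ℤ, ¬ IsSquare n →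
    (((box N).filter fun u => ds u = n).card : ℝ) ≤ C * (N : ℝ) ^ (1 + ε) := by
  classical
  obtain ⟨K, hK, hKd⟩ := H353.divisor_bound_real (ε / 2) (by positivity)
  refine ⟨6 * K * 4 ^ (ε / 2), by positivity, fun N hN n hn => ?_⟩
  have hN1 : (1 : ℝ) ≤ N := by exact_mod_cast hN
  -- the fibres over `b`
  set I : Finset ℤ := Finset.Icc (-(N : ℤ)) N with hI
  have hIc : (I.card : ℝ) ≤ 3 * N := by
    rw [hI, Int.card_Icc]
    have : ((N : ℤ) + 1 - -(N : ℤ)).toNat = 2 * N + 1 := by omega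
    rw [this]
    push_cast
    linarith
  set S := (box N).filter fun u => ds u = n with hS
  have hmaps : ∀ u ∈ S, u.2.1 ∈ I := by
    intro u hu
    rw [hS, Finset.mem_filter, mem_box] at hu
    rw [hI, Finset.mem_Icc, ← abs_le]
    exact hu.1.2.1
  have hfib : ∀ b ∈ I, (((S.filter fun u => u.2.1 = b).card : ℕ) : ℝ) ≤
      2 * (K * (4 * (N : ℝ) ^ 2) ^ (ε / 2)) := by
    intro b _
    set T := S.filter fun u => u.2.1 = b with hT
    rcases T.eq_empty_or_nonempty with h | ⟨u0, hu0⟩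
    · rw [h]; simp; positivity
    have hmem : ∀ u ∈ T, (|u.1| ≤ N ∧ |u.2.1| ≤ N ∧ |u.2.2| ≤ N) ∧
        4 * u.1 * u.2.2 = b ^ 2 - n := by
      intro u hu
      rw [hT, Finset.mem_filter, hS, Finset.mem_filter, mem_box] at hu
      obtain ⟨⟨h1, h2⟩, h3⟩ := hu
      refine ⟨h1, ?_⟩
      unfold ds at h2
      rw [h3] at h2
      linarith
    have hm0 : b ^ 2 - n ≠ 0 := by
      intro h
      exact hn ⟨b, by linarith [sq b]⟩
    have hmle : ((b ^ 2 - n).natAbs : ℝ) ≤ 4 * (N : ℝ) ^ 2 := by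
      obtain ⟨⟨h1, _, h3⟩, h4⟩ := hmem u0 hu0
      rw [← h4]
      have h5 : |4 * u0.1 * u0.2.2| ≤ 4 * (N : ℤ) ^ 2 := by
        rw [mul_assoc, abs_mul, abs_mul]
        have : |u0.1| * |u0.2.2| ≤ (N : ℤ) * N := mul_le_mul h1 h3 (abs_nonneg _) (by positivity)
        norm_num
        nlinarith
      have h6 : ((4 * u0.1 * u0.2.2).natAbs : ℤ) ≤ ((4 * N ^ 2 : ℕ) : ℤ) := by
        rw [Int.natCast_natAbs]; push_cast; exact h5
      have h7 : (4 * u0.1 * u0.2.2).natAbs ≤ 4 * N ^ 2 := by exact_mod_cast h6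
      have h8 : ((4 * u0.1 * u0.2.2).natAbs : ℝ) ≤ ((4 * N ^ 2 : ℕ) : ℝ) := Nat.cast_le.2 h7
      push_cast at h8
      exact h8
    have hinj : Set.InjOn (fun u : ℤ × ℤ × ℤ => u.1) (T : Set (ℤ × ℤ × ℤ)) := by
      intro u hu v hv huv
      have hu' := hu
      have hv' := hv
      rw [Finset.mem_coe] at hu' hv'
      have h1 := (hmem u hu').2
      have h2 := (hmem v hv').2
      have h3 : u.2.1 = v.2.1 := by
        rw [hT, Finset.mem_filter] at hu' hv'
        rw [hu'.2, hv'.2]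
      have hu10 : u.1 ≠ 0 := by
        intro h
        rw [h] at h1
        apply hm0
        rw [← h1]; ring
      simp only at huv
      have h4 : u.2.2 = v.2.2 := by
        rw [← huv] at h2
        have h5 : 4 * u.1 * u.2.2 = 4 * u.1 * v.2.2 := h1.trans h2.symm
        exact mul_left_cancel₀ (mul_ne_zero (by norm_num) hu10) h5
      exact Prod.ext huv (Prod.ext h3 h4)
    have h7 : T.card ≤ 2 * (b ^ 2 - n).natAbs.divisors.card := by
      rw [← Finset.card_image_of_injOn hinj]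
      refine card_dvd _ hm0 _ fun a ha => ?_
      rw [Finset.mem_image] at ha
      obtain ⟨u, hu, rfl⟩ := ha
      exact ⟨4 * u.2.2, by rw [← (hmem u hu).2]; ring⟩
    have h8 : (T.card : ℝ) ≤ 2 * ((b ^ 2 - n).natAbs.divisors.card : ℝ) := by exact_mod_cast h7
    refine h8.trans (mul_le_mul_of_nonneg_left ?_ (by norm_num))
    refine (hKd _ (Int.natAbs_ne_zero.2 hm0)).trans (mul_le_mul_of_nonneg_left ?_ hK.le)
    exact Real.rpow_le_rpow (Nat.cast_nonneg _) hmle (by positivity)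
  have h9 : (S.card : ℝ) = ∑ b ∈ I, (((S.filter fun u => u.2.1 = b).card : ℕ) : ℝ) := by
    rw [Finset.card_eq_sum_card_fiberwise hmaps]
    push_cast
    rfl
  rw [h9]
  have h10 := Finset.sum_le_sum hfib
  refine h10.trans ?_
  rw [Finset.sum_const, nsmul_eq_mul]
  have h11 : (4 * (N : ℝ) ^ 2) ^ (ε / 2) = 4 ^ (ε / 2) * (N : ℝ) ^ ε := by
    rw [Real.mul_rpow (by norm_num) (by positivity), ← Real.rpow_natCast, ← Real.rpow_mul
      (by positivity)]
    congr 2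
    push_cast
    ring
  rw [h11, Real.rpow_add (by positivity), Real.rpow_one]
  calc (I.card : ℝ) * (2 * (K * (4 ^ (ε / 2) * (N : ℝ) ^ ε)))
      ≤ (3 * N) * (2 * (K * (4 ^ (ε / 2) * (N : ℝ) ^ ε))) :=
        mul_le_mul_of_nonneg_right hIc (by positivity)
    _ = _ := by ring

/-- weighted sums over the box -/
theorem sum_box (ε : ℝ) (hε : 0 < ε) : ∃ C : ℝ, 0 < C ∧ ∀ N : ℕ, 1 ≤ N → ∀ g : ℕ → ℝ,
    (∀ n, 0 ≤ g n) →
    ∑ u ∈ (box N).filter (fun u => ¬ IsSquare (ds u)), g (ds u).natAbs ≤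
      C * (N : ℝ) ^ (1 + ε) * ∑ n ∈ Finset.Icc 1 (5 * N ^ 2), g n := by
  classical
  obtain ⟨C, hC, hcard⟩ := card_ds ε hε
  refine ⟨2 * C, by positivity, fun N hN g hg => ?_⟩
  have hmaps : ∀ u ∈ (box N).filter (fun u => ¬ IsSquare (ds u)),
      (ds u).natAbs ∈ Finset.Icc 1 (5 * N ^ 2) := by
    intro u hu
    rw [Finset.mem_filter] at hu
    rw [Finset.mem_Icc]
    refine ⟨?_, ds_le hu.1⟩
    rw [Nat.one_le_iff_ne_zero, Int.natAbs_ne_zero]
    intro h
    exact hu.2 ⟨0, by rw [h]; rfl⟩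
  rw [← Finset.sum_fiberwise_of_maps_to hmaps, Finset.mul_sum]
  refine Finset.sum_le_sum fun n _ => ?_
  have h1 : ∑ u ∈ ((box N).filter (fun u => ¬ IsSquare (ds u))).filter
      (fun u => (ds u).natAbs = n), g (ds u).natAbs =
      (((box N).filter (fun u => ¬ IsSquare (ds u))).filter
        (fun u => (ds u).natAbs = n)).card * g n := by
    rw [Finset.sum_congr rfl (g := fun _ => g n)
      (fun u hu => by rw [(Finset.mem_filter.1 hu).2]), Finset.sum_const, nsmul_eq_mul]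
  rw [h1]
  refine mul_le_mul_of_nonneg_right ?_ (hg n)
  have h2 : ∀ m : ℤ, ((((box N).filter fun u => ds u = m).filter fun u => ¬ IsSquare (ds u)).card
      : ℝ) ≤ C * (N : ℝ) ^ (1 + ε) := by
    intro m
    by_cases hm : IsSquare m
    · have : ((box N).filter fun u => ds u = m).filter (fun u => ¬ IsSquare (ds u)) = ∅ := by
        rw [Finset.filter_eq_empty_iff]
        intro u hu
        rw [(Finset.mem_filter.1 hu).2]
        exact fun h => h hm
      rw [this]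
      simp
      positivity
    · refine le_trans ?_ (hcard N hN m hm)
      exact_mod_cast Finset.card_le_card (Finset.filter_subset _ _)
  have h3 : ((box N).filter (fun u => ¬ IsSquare (ds u))).filter (fun u => (ds u).natAbs = n) ⊆
      (((box N).filter fun u => ds u = (n : ℤ)).filter fun u => ¬ IsSquare (ds u)) ∪
      (((box N).filter fun u => ds u = -(n : ℤ)).filter fun u => ¬ IsSquare (ds u)) := by
    intro u hu
    simp only [Finset.mem_filter, Finset.mem_union] at hu ⊢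
    obtain ⟨⟨h4, h5⟩, h6⟩ := hu
    rcases Int.natAbs_eq (ds u) with h | h
    · rw [h6] at h
      exact Or.inl ⟨⟨h4, h⟩, h5⟩
    · rw [h6] at h
      exact Or.inr ⟨⟨h4, h⟩, h5⟩
  have h4 : ((((box N).filter (fun u => ¬ IsSquare (ds u))).filter
      (fun u => (ds u).natAbs = n)).card : ℝ) ≤
      ((((box N).filter fun u => ds u = (n : ℤ)).filter fun u => ¬ IsSquare (ds u)).card : ℝ) +
      ((((box N).filter fun u => ds u = -(n : ℤ)).filter fun u => ¬ IsSquare (ds u)).card : ℝ) := by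
    exact_mod_cast (Finset.card_le_card h3).trans (Finset.card_union_le _ _)
  linarith [h2 n, h2 (-(n : ℤ))]

/-- the sum of `op(n)^(-1/2) n^(-1/2)` -/
theorem sum_opn (K : ℕ) : ∑ n ∈ Finset.Icc 1 (2 ^ K),
    ((op n : ℝ)) ^ (-(1 / 2 : ℝ)) * (n : ℝ) ^ (-(1 / 2 : ℝ)) ≤ 2 * ((K : ℝ) + 1) ^ 2 := by
  induction K with
  | zero =>
    have : op 1 = 1 := by unfold op; simp
    simp [this]
  | succ K ih =>
    have hsplit : Finset.Icc 1 (2 ^ (K + 1)) =
        Finset.Icc 1 (2 ^ K) ∪ Finset.Ioc (2 ^ K) (2 ^ (K + 1)) := by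
      ext n
      simp only [Finset.mem_union, Finset.mem_Icc, Finset.mem_Ioc]
      have h1 : 2 ^ K ≤ 2 ^ (K + 1) := Nat.pow_le_pow_right (by norm_num) (by omega)
      have h2 : 1 ≤ 2 ^ K := Nat.one_le_two_pow
      omega
    have hdisj : Disjoint (Finset.Icc 1 (2 ^ K)) (Finset.Ioc (2 ^ K) (2 ^ (K + 1))) := by
      rw [Finset.disjoint_left]
      intro n h1 h2
      rw [Finset.mem_Icc] at h1
      rw [Finset.mem_Ioc] at h2
      omega
    rw [hsplit, Finset.sum_union hdisj]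
    have h2K : (0 : ℝ) < (2 : ℝ) ^ K := by positivity
    have h1 : ∑ n ∈ Finset.Ioc (2 ^ K) (2 ^ (K + 1)),
        ((op n : ℝ)) ^ (-(1 / 2 : ℝ)) * (n : ℝ) ^ (-(1 / 2 : ℝ)) ≤
        ((2 : ℝ) ^ K) ^ (-(1 / 2 : ℝ)) * (Real.sqrt ((2 ^ (K + 1) : ℕ) : ℝ) *
          (1 + Real.log ((2 ^ (K + 1) : ℕ) : ℝ))) := by
      have h2 : ∑ n ∈ Finset.Ioc (2 ^ K) (2 ^ (K + 1)),
          ((op n : ℝ)) ^ (-(1 / 2 : ℝ)) * (n : ℝ) ^ (-(1 / 2 : ℝ)) ≤
          ∑ n ∈ Finset.Ioc (2 ^ K) (2 ^ (K + 1)),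
            ((2 : ℝ) ^ K) ^ (-(1 / 2 : ℝ)) * ((op n : ℝ)) ^ (-(1 / 2 : ℝ)) := by
        refine Finset.sum_le_sum fun n hn => ?_
        rw [Finset.mem_Ioc] at hn
        rw [mul_comm]
        refine mul_le_mul_of_nonneg_right ?_ (by positivity)
        refine Real.rpow_le_rpow_of_nonpos h2K ?_ (by norm_num)
        exact_mod_cast hn.1.le
      refine h2.trans ?_
      rw [← Finset.mul_sum]
      refine mul_le_mul_of_nonneg_left ?_ (by positivity)
      refine le_trans ?_ (sum_op (2 ^ (K + 1)))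
      refine Finset.sum_le_sum_of_subset_of_nonneg ?_ fun _ _ _ => by positivity
      intro n hn
      rw [Finset.mem_Ioc] at hn
      rw [Finset.mem_Icc]
      omega
    have h3 : ((2 : ℝ) ^ K) ^ (-(1 / 2 : ℝ)) * (Real.sqrt ((2 ^ (K + 1) : ℕ) : ℝ) *
          (1 + Real.log ((2 ^ (K + 1) : ℕ) : ℝ))) ≤ 2 * ((K : ℝ) + 2) := by
      push_cast
      rw [Real.log_pow, Real.sqrt_eq_rpow, Real.rpow_neg h2K.le]
      have h4 : ((2 : ℝ) ^ (K + 1)) ^ (1 / 2 : ℝ) = ((2 : ℝ) ^ K) ^ (1 / 2 : ℝ) * 2 ^ (1 / 2 : ℝ) := by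
        rw [pow_succ, Real.mul_rpow h2K.le (by norm_num)]
      rw [h4]
      have h5 : (0 : ℝ) < ((2 : ℝ) ^ K) ^ (1 / 2 : ℝ) := by positivity
      have h6 : (2 : ℝ) ^ (1 / 2 : ℝ) ≤ 2 := by
        calc (2 : ℝ) ^ (1 / 2 : ℝ) ≤ (2 : ℝ) ^ (1 : ℝ) :=
              Real.rpow_le_rpow_of_exponent_le (by norm_num) (by norm_num)
          _ = 2 := Real.rpow_one 2
      have h7 : Real.log 2 ≤ 1 := by
        have := Real.log_two_lt_d9
        linarith
      have h8 : (0 : ℝ) ≤ Real.log 2 := Real.log_nonneg (by norm_num)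
      have hK0 : (0 : ℝ) ≤ K := Nat.cast_nonneg K
      have h9 : (((2 : ℝ) ^ K) ^ (1 / 2 : ℝ))⁻¹ * (((2 : ℝ) ^ K) ^ (1 / 2 : ℝ) * 2 ^ (1 / 2 : ℝ) *
          (1 + ((K + 1 : ℕ) : ℝ) * Real.log 2)) = 2 ^ (1 / 2 : ℝ) *
          (1 + ((K + 1 : ℕ) : ℝ) * Real.log 2) := by
        field_simp
      rw [h9]
      push_cast
      have h10 : 1 + ((K : ℝ) + 1) * Real.log 2 ≤ (K : ℝ) + 2 := by nlinarith
      have h11 : 0 ≤ 1 + ((K : ℝ) + 1) * Real.log 2 := by positivity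
      exact mul_le_mul h6 h10 h11 (by norm_num)
    push_cast
    have hK0 : (0 : ℝ) ≤ K := Nat.cast_nonneg K
    nlinarith [ih, h1, h3]

end Pool.Agent.X124.MV
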