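import Mathlib
import Pool.Agent.X124.MV.Cnt

set_option autoImplicit false

/-!
Sublevel sets of integral quadratic polynomials, and the almost everywhere lower bound at one point.
-/

namespace Pool.Agent.X124.MV

open Finset Pool.Agent.H813R3.Voj MeasureTheory Filter

/-- the value of `a X^2 + b X + c` -/
noncomputable def ev (u : ℤ × ℤ × ℤ) (x : ℝ) : ℝ := u.1 * x ^ 2 + u.2.1 * x + u.2.2

/-- the square root of the absolute value of the discriminant -/
noncomputable def rd (u : ℤ × ℤ × ℤ) : ℝ := Real.sqrt ((ds u).natAbs : ℝ)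

lemma ne_of_not_sq {u : ℤ × ℤ × ℤ} (h : ¬ IsSquare (ds u)) : u.1 ≠ 0 ∧ ds u ≠ 0 := by
  constructor
  · intro h0
    apply h
    refine ⟨u.2.1, ?_⟩
    unfold ds
    rw [h0]; ring
  · intro h0
    apply h
    rw [h0]
    exact ⟨0, by ring⟩

lemma rd_pos {u : ℤ × ℤ × ℤ} (h : ds u ≠ 0) : 0 < rd u := by
  unfold rd
  apply Real.sqrt_pos.2
  exact_mod_cast Int.natAbs_pos.2 h

lemma rd_sq (u : ℤ × ℤ × ℤ) : rd u ^ 2 = |(ds u : ℝ)| := by
  unfold rd
  rw [Real.sq_sqrt (Nat.cast_nonneg _), Nat.cast_natAbs]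
  push_cast
  rfl

/-- a point with a small value is close to one of two points -/
lemma near (u : ℤ × ℤ × ℤ) (ha : u.1 ≠ 0) (hd : ds u ≠ 0) : ∃ y z : ℝ, ∀ x t : ℝ,
    |ev u x| ≤ t → |x - y| ≤ 2 * t / rd u ∨ |x - z| ≤ 2 * t / rd u := by
  have ha' : (u.1 : ℝ) ≠ 0 := by exact_mod_cast ha
  have ha0 : 0 < |(u.1 : ℝ)| := abs_pos.2 ha'
  have hr := rd_pos hd
  have hr2 := rd_sq u
  have hds : (ds u : ℝ) = (u.2.1 : ℝ) ^ 2 - 4 * u.1 * u.2.2 := by unfold ds; push_cast; ring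
  have h4 : ∀ x : ℝ, 4 * (u.1 : ℝ) * ev u x = (2 * u.1 * x + u.2.1) ^ 2 - ds u := by
    intro x
    rw [hds]
    unfold ev
    ring
  rcases lt_or_gt_of_ne (show (ds u : ℝ) ≠ 0 by exact_mod_cast hd) with hneg | hpos
  · refine ⟨-(u.2.1 : ℝ) / (2 * u.1), 0, fun x t ht => Or.inl ?_⟩
    rw [abs_of_neg hneg] at hr2
    set w : ℝ := 2 * u.1 * x + u.2.1 with hw
    have h5 : w ^ 2 + rd u ^ 2 ≤ 4 * |(u.1 : ℝ)| * t := by
      rw [hr2]
      have h6 := h4 x
      have h7 : w ^ 2 + -(ds u : ℝ) = 4 * u.1 * ev u x := by rw [h6]; ring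
      rw [h7]
      calc 4 * (u.1 : ℝ) * ev u x ≤ |4 * (u.1 : ℝ) * ev u x| := le_abs_self _
        _ = 4 * |(u.1 : ℝ)| * |ev u x| := by
          rw [abs_mul, abs_mul, abs_of_pos (by norm_num : (0 : ℝ) < 4)]
        _ ≤ _ := mul_le_mul_of_nonneg_left ht (by positivity)
    have h6 : 2 * |w| * rd u ≤ 4 * |(u.1 : ℝ)| * t := by
      refine le_trans ?_ h5
      nlinarith [sq_nonneg (|w| - rd u), sq_abs w]
    have h7 : x - -(u.2.1 : ℝ) / (2 * u.1) = w / (2 * u.1) := by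
      rw [hw]; field_simp; ring
    rw [h7, abs_div, abs_mul, abs_of_pos (by norm_num : (0 : ℝ) < 2), div_le_div_iff₀
      (by positivity) hr]
    have ht0 : 0 ≤ t := (abs_nonneg _).trans ht
    have h8 : 0 ≤ |(u.1 : ℝ)| * t := by positivity
    nlinarith
  · rw [abs_of_pos hpos] at hr2
    refine ⟨(rd u - u.2.1) / (2 * u.1), (-rd u - u.2.1) / (2 * u.1), fun x t ht => ?_⟩
    set w : ℝ := 2 * u.1 * x + u.2.1 with hw
    have h5 : |w - rd u| * |w + rd u| ≤ 4 * |(u.1 : ℝ)| * t := by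
      rw [← abs_mul]
      have h7 : (w - rd u) * (w + rd u) = 4 * u.1 * ev u x := by rw [h4 x, ← hr2]; ring
      rw [h7]
      calc |4 * (u.1 : ℝ) * ev u x| = 4 * |(u.1 : ℝ)| * |ev u x| := by
            rw [abs_mul, abs_mul, abs_of_pos (by norm_num : (0 : ℝ) < 4)]
        _ ≤ _ := mul_le_mul_of_nonneg_left ht (by positivity)
    have h6 : ∀ s : ℝ, x - (s - u.2.1) / (2 * u.1) = (w - s) / (2 * u.1) := by
      intro s
      rw [hw]; field_simp; ring
    have h7 : 2 * rd u ≤ |w - rd u| + |w + rd u| := by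
      calc 2 * rd u = |(w + rd u) - (w - rd u)| := by
            rw [show (w + rd u) - (w - rd u) = 2 * rd u by ring, abs_of_pos (by positivity)]
        _ ≤ |w + rd u| + |w - rd u| := abs_sub _ _
        _ = _ := add_comm _ _
    have ht0 : 0 ≤ t := (abs_nonneg _).trans ht
    rcases le_total (rd u) |w + rd u| with h8 | h8
    · left
      rw [h6, abs_div, abs_mul, abs_of_pos (by norm_num : (0 : ℝ) < 2), div_le_div_iff₀
        (by positivity) hr]
      have h9 : |w - rd u| * rd u ≤ |w - rd u| * |w + rd u| :=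
        mul_le_mul_of_nonneg_left h8 (abs_nonneg _)
      linarith
    · right
      rw [h6, abs_div, abs_mul, abs_of_pos (by norm_num : (0 : ℝ) < 2), div_le_div_iff₀
        (by positivity) hr]
      have h8' : rd u ≤ |w - rd u| := by linarith
      have h9 : |w + rd u| * rd u ≤ |w + rd u| * |w - rd u| :=
        mul_le_mul_of_nonneg_left h8' (abs_nonneg _)
      have h10 : |w - -rd u| = |w + rd u| := by rw [sub_neg_eq_add]
      rw [h10]
      linarith

/-- the measure of the sublevel set -/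
theorem vol_le (u : ℤ × ℤ × ℤ) (hu : ¬ IsSquare (ds u)) (t : ℝ) :
    volume {x : ℝ | |ev u x| ≤ t} ≤ ENNReal.ofReal (8 * t / rd u) := by
  obtain ⟨ha, hd⟩ := ne_of_not_sq hu
  obtain ⟨y, z, h⟩ := near u ha hd
  rcases lt_or_ge t 0 with ht | ht
  · have : {x : ℝ | |ev u x| ≤ t} = ∅ := by
      ext x
      simp only [Set.mem_ofPred_eq, Set.mem_empty_iff_false, iff_false, not_le]
      exact ht.trans_le (abs_nonneg _)
    rw [this]
    simp
  have hsub : {x : ℝ | |ev u x| ≤ t} ⊆ Metric.closedBall y (2 * t / rd u) ∪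
      Metric.closedBall z (2 * t / rd u) := by
    intro x hx
    rcases h x t hx with h | h
    · exact Or.inl (by rw [Metric.mem_closedBall, Real.dist_eq]; exact h)
    · exact Or.inr (by rw [Metric.mem_closedBall, Real.dist_eq]; exact h)
  have hr := rd_pos hd
  refine (measure_mono hsub).trans ((measure_union_le _ _).trans ?_)
  rw [Real.volume_closedBall, Real.volume_closedBall, ← ENNReal.ofReal_add (by positivity)
    (by positivity)]
  apply ENNReal.ofReal_le_ofReal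
  apply le_of_eq
  ring

/-- the size -/
def hn (u : ℤ × ℤ × ℤ) : ℕ := max u.1.natAbs (max u.2.1.natAbs u.2.2.natAbs)

lemma mem_box_of_hn {u : ℤ × ℤ × ℤ} {N : ℕ} (h : hn u ≤ N) : u ∈ box N := by
  unfold hn at h
  rw [mem_box]
  rw [max_le_iff, max_le_iff] at h
  refine ⟨?_, ?_, ?_⟩ <;> rw [Int.abs_eq_natAbs] <;> exact_mod_cast (by tauto)

lemma one_le_hn {u : ℤ × ℤ × ℤ} (h : ¬ IsSquare (ds u)) : 1 ≤ hn u := by
  have h1 := (ne_of_not_sq h).1
  unfold hn
  exact le_max_of_le_left (Int.natAbs_pos.2 h1)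

/-- summability -/
lemma summ (r : ℝ) (hr0 : 0 < r) (hr : r < 1) (A : ℝ) (d : ℕ) :
    Summable fun k : ℕ => A * ((k : ℝ) + 1) ^ d * r ^ k := by
  have h1 : Summable fun k : ℕ => ((k : ℝ)) ^ d * r ^ k :=
    summable_pow_mul_geometric_of_norm_lt_one d (by rw [Real.norm_eq_abs, abs_of_pos hr0]; exact hr)
  have h2 := ((summable_nat_add_iff 1).2 h1).mul_left (A * r⁻¹)
  refine h2.congr fun k => ?_
  push_cast
  rw [pow_succ]
  field_simp

lemma tsum_ne_top {r A : ℝ} (hr0 : 0 < r) (hr : r < 1) (hA : 0 ≤ A) (d : ℕ) {f : ℕ → ENNReal}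
    (hf : ∀ k, f k ≤ ENNReal.ofReal (A * ((k : ℝ) + 1) ^ d * r ^ k)) : ∑' k, f k ≠ ⊤ := by
  have h1 := summ r hr0 hr A d
  have h2 : ∑' k : ℕ, ENNReal.ofReal (A * ((k : ℝ) + 1) ^ d * r ^ k) ≠ ⊤ := by
    rw [← ENNReal.ofReal_tsum_of_nonneg (fun k => by positivity) h1]
    exact ENNReal.ofReal_ne_top
  exact ne_top_of_le_ne_top h2 (ENNReal.tsum_le_tsum hf)

/-- `D^(-1/2)` for the squarefree part `D` of the discriminant -/
noncomputable def wt (u : ℤ × ℤ × ℤ) : ℝ := (op (ds u).natAbs : ℝ) ^ (-(1 / 2 : ℝ))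

lemma wt_pos (u : ℤ × ℤ × ℤ) : 0 < wt u :=
  Real.rpow_pos_of_pos (by exact_mod_cast op_pos _) _

/-- the weighted sum for one point -/
theorem sum_one (ε : ℝ) (hε : 0 < ε) : ∃ C : ℝ, 0 < C ∧ ∀ k : ℕ,
    ∑ u ∈ (box (2 ^ k)).filter (fun u => ¬ IsSquare (ds u)), wt u / rd u ≤
      C * ((2 : ℝ) ^ k) ^ (1 + ε) * ((k : ℝ) + 1) ^ 2 := by
  obtain ⟨C, hC, hsum⟩ := sum_box ε hε
  refine ⟨32 * C, by positivity, fun k => ?_⟩
  have h1 := hsum (2 ^ k) Nat.one_le_two_pow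
    (fun n => (op n : ℝ) ^ (-(1 / 2 : ℝ)) * (n : ℝ) ^ (-(1 / 2 : ℝ))) (fun n => by positivity)
  have h2 : ∑ u ∈ (box (2 ^ k)).filter (fun u => ¬ IsSquare (ds u)), wt u / rd u =
      ∑ u ∈ (box (2 ^ k)).filter (fun u => ¬ IsSquare (ds u)),
        (op (ds u).natAbs : ℝ) ^ (-(1 / 2 : ℝ)) * ((ds u).natAbs : ℝ) ^ (-(1 / 2 : ℝ)) := by
    refine Finset.sum_congr rfl fun u _ => ?_
    unfold wt rd
    rw [div_eq_mul_inv, Real.sqrt_eq_rpow, ← Real.rpow_neg (Nat.cast_nonneg _)]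
  rw [h2]
  refine h1.trans ?_
  have h3 : ∑ n ∈ Finset.Icc 1 (5 * (2 ^ k) ^ 2),
      (op n : ℝ) ^ (-(1 / 2 : ℝ)) * (n : ℝ) ^ (-(1 / 2 : ℝ)) ≤ 32 * ((k : ℝ) + 1) ^ 2 := by
    have hsub : Finset.Icc 1 (5 * (2 ^ k) ^ 2) ⊆ Finset.Icc 1 (2 ^ (2 * k + 3)) := by
      apply Finset.Icc_subset_Icc_right
      have : (2 : ℕ) ^ (2 * k + 3) = 8 * (2 ^ k) ^ 2 := by
        rw [pow_add, mul_comm 2 k, pow_mul]; ring
      rw [this]
      nlinarith [Nat.one_le_two_pow (n := k)]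
    refine (Finset.sum_le_sum_of_subset_of_nonneg hsub fun _ _ _ => by positivity).trans
      ((sum_opn (2 * k + 3)).trans ?_)
    push_cast
    have hk : (0 : ℝ) ≤ k := Nat.cast_nonneg k
    nlinarith
  push_cast at h3 ⊢
  calc C * ((2 : ℝ) ^ k) ^ (1 + ε) * _ ≤ C * ((2 : ℝ) ^ k) ^ (1 + ε) * (32 * ((k : ℝ) + 1) ^ 2) :=
        mul_le_mul_of_nonneg_left h3 (by positivity)
    _ = _ := by ring

/-- **One point.** -/
theorem ae_one (ε : ℝ) (hε : 0 < ε) : ∀ᵐ x : ℝ, ∃ c : ℝ, 0 < c ∧ ∀ u : ℤ × ℤ × ℤ,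
    ¬ IsSquare (ds u) → c * (hn u : ℝ) ^ (-(1 + ε)) * wt u ≤ |ev u x| := by
  classical
  obtain ⟨C, hC, hsum⟩ := sum_one (ε / 2) (by positivity)
  set T : ℕ → ℝ := fun k => ((2 : ℝ) ^ k) ^ (-(1 + ε)) with hT
  set E : ℕ → Set ℝ := fun k => ⋃ u ∈ (box (2 ^ k)).filter (fun u => ¬ IsSquare (ds u)),
    {x : ℝ | |ev u x| ≤ T k * wt u} with hE
  set r : ℝ := (2 : ℝ) ^ (-(ε / 2)) with hr
  have hr0 : 0 < r := by positivity
  have hr1 : r < 1 := Real.rpow_lt_one_of_one_lt_of_neg (by norm_num) (by linarith)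
  have hrk : ∀ k : ℕ, ((2 : ℝ) ^ k) ^ (-(ε / 2)) = r ^ k := by
    intro k
    rw [hr, ← Real.rpow_natCast, ← Real.rpow_mul (by norm_num), ← Real.rpow_natCast,
      ← Real.rpow_mul (by norm_num), mul_comm]
  have hvol : ∀ k, volume (E k) ≤ ENNReal.ofReal (8 * C * ((k : ℝ) + 1) ^ 2 * r ^ k) := by
    intro k
    refine (measure_biUnion_finset_le _ _).trans ?_
    have h1 : ∀ u ∈ (box (2 ^ k)).filter (fun u => ¬ IsSquare (ds u)),
        volume {x : ℝ | |ev u x| ≤ T k * wt u} ≤ ENNReal.ofReal (8 * T k * (wt u / rd u)) := by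
      intro u hu
      refine (vol_le u (Finset.mem_filter.1 hu).2 _).trans (le_of_eq ?_)
      congr 1
      ring
    refine (Finset.sum_le_sum h1).trans ?_
    have hTk : 0 < T k := by rw [hT]; positivity
    rw [← ENNReal.ofReal_sum_of_nonneg (fun u hu => by
      have := wt_pos u
      have := rd_pos (ne_of_not_sq (Finset.mem_filter.1 hu).2).2
      positivity)]
    apply ENNReal.ofReal_le_ofReal
    rw [← Finset.mul_sum]
    calc 8 * T k * _ ≤ 8 * T k * (C * ((2 : ℝ) ^ k) ^ (1 + ε / 2) * ((k : ℝ) + 1) ^ 2) :=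
          mul_le_mul_of_nonneg_left (hsum k) (by positivity)
      _ = 8 * C * ((k : ℝ) + 1) ^ 2 * (((2 : ℝ) ^ k) ^ (-(1 + ε)) * ((2 : ℝ) ^ k) ^ (1 + ε / 2)) := by
          rw [hT]; ring
      _ = _ := by
          rw [← Real.rpow_add (by positivity), ← hrk]
          congr 2
          ring
  have hBC := ae_eventually_notMem (tsum_ne_top hr0 hr1 (by positivity) 2 hvol)
  filter_upwards [hBC] with x hx
  obtain ⟨k0, hk0⟩ := eventually_atTop.1 hx
  refine ⟨((2 : ℝ) ^ (k0 + 1)) ^ (-(1 + ε)), by positivity, fun u hu => ?_⟩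
  have hn1 := one_le_hn hu
  set k := max (Nat.clog 2 (hn u)) k0 with hk
  have h1 : hn u ≤ 2 ^ k := (Nat.le_pow_clog (by norm_num) _).trans
    (Nat.pow_le_pow_right (by norm_num) (le_max_left _ _))
  have h2 : 2 ^ k ≤ 2 ^ (k0 + 1) * hn u := by
    have h3 : 2 ^ Nat.clog 2 (hn u) ≤ 2 * hn u := by
      rcases Nat.lt_or_ge 1 (hn u) with h | h
      · have := Nat.pow_pred_clog_lt_self (by norm_num : 1 < 2) h
        have h4 : Nat.clog 2 (hn u) = (Nat.clog 2 (hn u)).pred + 1 :=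
          (Nat.succ_pred_eq_of_pos (Nat.clog_pos (by norm_num) h)).symm
        rw [h4, pow_succ]
        omega
      · have : hn u = 1 := le_antisymm h hn1
        rw [this]; simp
    rcases le_total (Nat.clog 2 (hn u)) k0 with h | h
    · rw [hk, max_eq_right h, pow_succ]
      nlinarith [Nat.one_le_two_pow (n := k0)]
    · rw [hk, max_eq_left h, pow_succ]
      calc 2 ^ Nat.clog 2 (hn u) ≤ 2 * hn u := h3
        _ ≤ 2 ^ k0 * 2 * hn u := by nlinarith [Nat.one_le_two_pow (n := k0)]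
  have h5 := hk0 k (le_max_right _ _)
  rw [hE] at h5
  simp only [Set.mem_iUnion, not_exists, Set.mem_ofPred_eq, not_le] at h5
  have h6 := h5 u (Finset.mem_filter.2 ⟨mem_box_of_hn h1, hu⟩)
  refine le_trans (mul_le_mul_of_nonneg_right ?_ (wt_pos u).le) h6.le
  rw [hT]
  simp only
  rw [← Real.mul_rpow (by positivity) (Nat.cast_nonneg _)]
  apply Real.rpow_le_rpow_of_nonpos (by positivity)
  · exact_mod_cast h2
  · linarith

end Pool.Agent.X124.MV
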