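import Mathlib
import Pool.Agent.X124.MV.Sub

set_option autoImplicit false

/-!
The almost everywhere lower bound for integral linear polynomials.
-/

namespace Pool.Agent.X124.MV

open Finset MeasureTheory Filter

lemma sum_inv (k : ℕ) : ∑ q ∈ Finset.Icc (1 : ℕ) (2 ^ k), (1 / (q : ℝ)) ≤ k + 1 := by
  induction k with
  | zero => simp
  | succ k ih =>
    have hsplit : Finset.Icc (1 : ℕ) (2 ^ (k + 1)) =
        Finset.Icc 1 (2 ^ k) ∪ Finset.Ioc (2 ^ k) (2 ^ (k + 1)) := by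
      ext n
      simp only [Finset.mem_union, Finset.mem_Icc, Finset.mem_Ioc]
      have h1 : 2 ^ k ≤ 2 ^ (k + 1) := Nat.pow_le_pow_right (by norm_num) (by omega)
      have h2 : 1 ≤ 2 ^ k := Nat.one_le_two_pow
      omega
    have hdisj : Disjoint (Finset.Icc (1 : ℕ) (2 ^ k)) (Finset.Ioc (2 ^ k) (2 ^ (k + 1))) := by
      rw [Finset.disjoint_left]
      intro n h1 h2
      rw [Finset.mem_Icc] at h1
      rw [Finset.mem_Ioc] at h2
      omega
    rw [hsplit, Finset.sum_union hdisj]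
    have h1 : ∑ q ∈ Finset.Ioc (2 ^ k : ℕ) (2 ^ (k + 1)), (1 / (q : ℝ)) ≤
        ∑ q ∈ Finset.Ioc (2 ^ k : ℕ) (2 ^ (k + 1)), (1 / (2 : ℝ) ^ k) := by
      refine Finset.sum_le_sum fun q hq => ?_
      rw [Finset.mem_Ioc] at hq
      apply one_div_le_one_div_of_le (by positivity)
      exact_mod_cast hq.1.le
    have h2 : ∑ q ∈ Finset.Ioc (2 ^ k : ℕ) (2 ^ (k + 1)), (1 / (2 : ℝ) ^ k) = 1 := by
      rw [Finset.sum_const, Nat.card_Ioc, nsmul_eq_mul]
      have : 2 ^ (k + 1) - 2 ^ k = 2 ^ k := by rw [pow_succ]; omega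
      rw [this]
      push_cast
      field_simp
    push_cast
    linarith

/-- **Linear polynomials.** -/
theorem ae_lin (ε : ℝ) (hε : 0 < ε) : ∀ᵐ x : ℝ, ∃ c : ℝ, 0 < c ∧ ∀ q p : ℤ, q ≠ 0 →
    c * ((max q.natAbs p.natAbs : ℕ) : ℝ) ^ (-(1 + ε)) ≤ |(q : ℝ) * x + p| := by
  classical
  set T : ℕ → ℝ := fun k => ((2 : ℝ) ^ k) ^ (-(1 + ε)) with hT
  set E : ℕ → Set ℝ := fun k => ⋃ q ∈ Finset.Icc 1 (2 ^ k),
    ⋃ p ∈ Finset.Icc (-((2 ^ k : ℕ) : ℤ)) ((2 ^ k : ℕ) : ℤ),
    {x : ℝ | |((q : ℕ) : ℝ) * x + p| ≤ T k} with hE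
  set r : ℝ := (2 : ℝ) ^ (-ε) with hr
  have hr0 : 0 < r := by positivity
  have hr1 : r < 1 := Real.rpow_lt_one_of_one_lt_of_neg (by norm_num) (by linarith)
  have hrk : ∀ k : ℕ, ((2 : ℝ) ^ k) ^ (-ε) = r ^ k := by
    intro k
    rw [hr, ← Real.rpow_natCast, ← Real.rpow_mul (by norm_num), ← Real.rpow_natCast,
      ← Real.rpow_mul (by norm_num), mul_comm]
  have hTk : ∀ k, 0 < T k := fun k => by rw [hT]; positivity
  have hvol : ∀ k, volume (E k) ≤ ENNReal.ofReal (6 * ((k : ℝ) + 1) ^ 1 * r ^ k) := by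
    intro k
    refine (measure_biUnion_finset_le _ _).trans ?_
    have h1 : ∀ q ∈ Finset.Icc 1 (2 ^ k), volume
        (⋃ p ∈ Finset.Icc (-((2 ^ k : ℕ) : ℤ)) ((2 ^ k : ℕ) : ℤ),
          {x : ℝ | |((q : ℕ) : ℝ) * x + p| ≤ T k}) ≤
        ENNReal.ofReal (6 * 2 ^ k * T k * (1 / (q : ℝ))) := by
      intro q hq
      rw [Finset.mem_Icc] at hq
      have hq0 : (0 : ℝ) < q := by exact_mod_cast (by omega : 0 < q)
      refine (measure_biUnion_finset_le _ _).trans ?_
      have h2 : ∀ p ∈ Finset.Icc (-((2 ^ k : ℕ) : ℤ)) ((2 ^ k : ℕ) : ℤ),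
          volume {x : ℝ | |((q : ℕ) : ℝ) * x + p| ≤ T k} ≤ ENNReal.ofReal (2 * T k / q) := by
        intro p _
        have hsub : {x : ℝ | |((q : ℕ) : ℝ) * x + p| ≤ T k} ⊆
            Metric.closedBall (-(p : ℝ) / q) (T k / q) := by
          intro x hx
          rw [Set.mem_ofPred_eq] at hx
          rw [Metric.mem_closedBall, Real.dist_eq]
          have h3 : x - -(p : ℝ) / q = (q * x + p) / q := by field_simp; ring
          rw [h3, abs_div, abs_of_pos hq0]
          exact div_le_div_of_nonneg_right hx hq0.le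
        refine (measure_mono hsub).trans ?_
        rw [Real.volume_closedBall]
        apply ENNReal.ofReal_le_ofReal
        apply le_of_eq
        ring
      refine (Finset.sum_le_sum h2).trans ?_
      rw [Finset.sum_const, nsmul_eq_mul, ← ENNReal.ofReal_natCast,
        ← ENNReal.ofReal_mul (Nat.cast_nonneg _)]
      apply ENNReal.ofReal_le_ofReal
      have h3 : ((Finset.Icc (-((2 ^ k : ℕ) : ℤ)) ((2 ^ k : ℕ) : ℤ)).card : ℝ) ≤ 3 * 2 ^ k := by
        rw [Int.card_Icc]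
        have : (((2 ^ k : ℕ) : ℤ) + 1 - -((2 ^ k : ℕ) : ℤ)).toNat = 2 * 2 ^ k + 1 := by omega
        rw [this]
        push_cast
        have : (1 : ℝ) ≤ 2 ^ k := one_le_pow₀ (by norm_num)
        linarith
      have := hTk k
      calc _ ≤ (3 * 2 ^ k) * (2 * T k / q) := mul_le_mul_of_nonneg_right h3 (by positivity)
        _ = _ := by ring
    refine (Finset.sum_le_sum h1).trans ?_
    rw [← ENNReal.ofReal_sum_of_nonneg (fun q _ => by
      have := hTk k
      positivity)]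
    apply ENNReal.ofReal_le_ofReal
    rw [← Finset.mul_sum]
    have := hTk k
    calc _ ≤ 6 * 2 ^ k * T k * (k + 1) := mul_le_mul_of_nonneg_left (sum_inv k) (by positivity)
      _ = 6 * ((k : ℝ) + 1) ^ 1 * (((2 : ℝ) ^ k) ^ (1 : ℝ) * ((2 : ℝ) ^ k) ^ (-(1 + ε))) := by
          rw [hT, Real.rpow_one]; ring
      _ = _ := by
          rw [← Real.rpow_add (by positivity), ← hrk]
          congr 2
          ring
  have hBC := ae_eventually_notMem (tsum_ne_top hr0 hr1 (by positivity) 1 hvol)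
  filter_upwards [hBC] with x hx
  obtain ⟨k0, hk0⟩ := eventually_atTop.1 hx
  refine ⟨((2 : ℝ) ^ (k0 + 1)) ^ (-(1 + ε)), by positivity, fun q p hq => ?_⟩
  -- reduction to positive `q`
  wlog hqp : 0 < q generalizing q p with H
  · have h1 := H (-q) (-p) (by omega) (by omega)
    rw [Int.natAbs_neg, Int.natAbs_neg] at h1
    have h2 : ((-q : ℤ) : ℝ) * x + ((-p : ℤ) : ℝ) = -((q : ℝ) * x + p) := by push_cast; ring
    rwa [h2, abs_neg] at h1
  set h : ℕ := max q.natAbs p.natAbs with hh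
  have hn1 : 1 ≤ h := le_max_of_le_left (Int.natAbs_pos.2 hq)
  set k := max (Nat.clog 2 h) k0 with hk
  have h1 : h ≤ 2 ^ k := (Nat.le_pow_clog (by norm_num) _).trans
    (Nat.pow_le_pow_right (by norm_num) (le_max_left _ _))
  have h2 : 2 ^ k ≤ 2 ^ (k0 + 1) * h := by
    have h3 : 2 ^ Nat.clog 2 h ≤ 2 * h := by
      rcases Nat.lt_or_ge 1 h with h' | h'
      · have := Nat.pow_pred_clog_lt_self (by norm_num : 1 < 2) h'
        have h4 : Nat.clog 2 h = (Nat.clog 2 h).pred + 1 :=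
          (Nat.succ_pred_eq_of_pos (Nat.clog_pos (by norm_num) h')).symm
        rw [h4, pow_succ]
        omega
      · have : h = 1 := le_antisymm h' hn1
        rw [this]; simp
    rcases le_total (Nat.clog 2 h) k0 with h' | h'
    · rw [hk, max_eq_right h', pow_succ]
      nlinarith [Nat.one_le_two_pow (n := k0)]
    · rw [hk, max_eq_left h', pow_succ]
      calc 2 ^ Nat.clog 2 h ≤ 2 * h := h3
        _ ≤ 2 ^ k0 * 2 * h := by nlinarith [Nat.one_le_two_pow (n := k0)]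
  have h5 := hk0 k (le_max_right _ _)
  rw [hE] at h5
  simp only [Set.mem_iUnion, not_exists, Set.mem_ofPred_eq, not_le] at h5
  have hql : q.natAbs ≤ 2 ^ k := (le_max_left _ _).trans h1
  have hpl : p.natAbs ≤ 2 ^ k := (le_max_right _ _).trans h1
  have h6 := h5 q.natAbs (Finset.mem_Icc.2 ⟨Int.natAbs_pos.2 hq, hql⟩) p
    (Finset.mem_Icc.2 (by constructor <;> omega))
  have h7 : ((q.natAbs : ℕ) : ℝ) = (q : ℝ) := by
    rw [Nat.cast_natAbs, abs_of_pos hqp]
  rw [h7] at h6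
  refine le_trans ?_ h6.le
  rw [hT]
  simp only
  rw [← Real.mul_rpow (by positivity) (Nat.cast_nonneg _)]
  apply Real.rpow_le_rpow_of_nonpos (by positivity)
  · exact_mod_cast h2
  · linarith

end Pool.Agent.X124.MV
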