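import Mathlib
import Pool.Agent.X124.MV.Sub

set_option autoImplicit false

/-!
The almost everywhere lower bound for the product of the values at two points.
-/

namespace Pool.Agent.X124.MV

open Finset Pool.Agent.H813R3.Voj MeasureTheory Filter

/-- the weighted sum for two points -/
theorem sum_two (ε : ℝ) (hε : 0 < ε) : ∃ C : ℝ, 0 < C ∧ ∀ k : ℕ,
    ∑ u ∈ (box (2 ^ k)).filter (fun u => ¬ IsSquare (ds u)), wt u ≤
      C * ((2 : ℝ) ^ k) ^ (2 + ε) * ((k : ℝ) + 1) := by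
  obtain ⟨C, hC, hsum⟩ := sum_box ε hε
  refine ⟨12 * C, by positivity, fun k => ?_⟩
  have h1 := hsum (2 ^ k) Nat.one_le_two_pow
    (fun n => (op n : ℝ) ^ (-(1 / 2 : ℝ))) (fun n => by positivity)
  refine h1.trans ?_
  have h3 : ∑ n ∈ Finset.Icc 1 (5 * (2 ^ k) ^ 2),
      (op n : ℝ) ^ (-(1 / 2 : ℝ)) ≤ 12 * (2 : ℝ) ^ k * ((k : ℝ) + 1) := by
    refine (sum_op _).trans ?_
    push_cast
    have h4 : Real.sqrt (5 * ((2 : ℝ) ^ k) ^ 2) ≤ 3 * (2 : ℝ) ^ k := by
      rw [Real.sqrt_le_left (by positivity)]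
      nlinarith [sq_nonneg ((2 : ℝ) ^ k)]
    have h5 : Real.log (5 * ((2 : ℝ) ^ k) ^ 2) ≤ 3 + 2 * k := by
      rw [Real.log_mul (by norm_num) (by positivity), Real.log_pow, Real.log_pow]
      have h6 : Real.log 2 ≤ 1 := by
        have := Real.log_two_lt_d9
        linarith
      have h7 : Real.log 5 ≤ 3 := by
        have h8 : Real.log 5 ≤ Real.log (2 ^ 3) := Real.log_le_log (by norm_num) (by norm_num)
        rw [Real.log_pow] at h8
        push_cast at h8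
        linarith
      have hk : (0 : ℝ) ≤ k := Nat.cast_nonneg k
      push_cast
      nlinarith
    have hk : (0 : ℝ) ≤ k := Nat.cast_nonneg k
    have h6 : 1 + Real.log (5 * ((2 : ℝ) ^ k) ^ 2) ≤ 4 * ((k : ℝ) + 1) := by linarith
    have h7 : (0 : ℝ) < (2 : ℝ) ^ k := by positivity
    calc Real.sqrt (5 * ((2 : ℝ) ^ k) ^ 2) * (1 + Real.log (5 * ((2 : ℝ) ^ k) ^ 2))
        ≤ Real.sqrt (5 * ((2 : ℝ) ^ k) ^ 2) * (4 * ((k : ℝ) + 1)) :=
          mul_le_mul_of_nonneg_left h6 (Real.sqrt_nonneg _)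
      _ ≤ (3 * (2 : ℝ) ^ k) * (4 * ((k : ℝ) + 1)) :=
          mul_le_mul_of_nonneg_right h4 (by positivity)
      _ = _ := by ring
  push_cast at h3 ⊢
  calc C * ((2 : ℝ) ^ k) ^ (1 + ε) * _ ≤ C * ((2 : ℝ) ^ k) ^ (1 + ε) *
      (12 * (2 : ℝ) ^ k * ((k : ℝ) + 1)) := mul_le_mul_of_nonneg_left h3 (by positivity)
    _ = 12 * C * (((2 : ℝ) ^ k) ^ (1 + ε) * ((2 : ℝ) ^ k) ^ (1 : ℝ)) * ((k : ℝ) + 1) := by
        rw [Real.rpow_one]; ring
    _ = _ := by
        rw [← Real.rpow_add (by positivity)]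
        congr 3
        ring

/-- **Two points.** -/
theorem ae_pair (ε : ℝ) (hε : 0 < ε) : ∀ᵐ z : ℝ × ℝ, ∀ m : ℕ, ∀ᶠ k : ℕ in atTop,
    ∀ u ∈ box (2 ^ k), ¬ IsSquare (ds u) → (4 : ℝ) ^ k ≤ 2 ^ m * (ds u).natAbs →
      (2 : ℝ) ^ k / 2 ^ (4 * k + m) < |ev u z.1| → |ev u z.1| ≤ 2 ^ k →
        ((2 : ℝ) ^ k) ^ (-ε) * wt u < |ev u z.1| * |ev u z.2| := by
  classical
  rw [ae_all_iff]
  intro m
  obtain ⟨C, hC, hsum⟩ := sum_two (ε / 2) (by positivity)
  set δ : ℕ → ℤ × ℤ × ℤ → ℝ := fun k u => ((2 : ℝ) ^ k) ^ (-ε) * wt u with hδ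
  set U : ℕ → Finset (ℤ × ℤ × ℤ) := fun k => ((box (2 ^ k)).filter
    (fun u => ¬ IsSquare (ds u))).filter (fun u => (4 : ℝ) ^ k ≤ 2 ^ m * (ds u).natAbs) with hU
  set E : ℕ → Set (ℝ × ℝ) := fun k => ⋃ u ∈ U k, ⋃ j ∈ Finset.range (4 * k + m + 1),
    ({x : ℝ | |ev u x| ≤ 2 ^ k / 2 ^ j} ×ˢ {y : ℝ | |ev u y| ≤ 2 ^ (j + 1) / 2 ^ k * δ k u}) with hE
  set r : ℝ := (2 : ℝ) ^ (-(ε / 2)) with hr
  have hr0 : 0 < r := by positivity
  have hr1 : r < 1 := Real.rpow_lt_one_of_one_lt_of_neg (by norm_num) (by linarith)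
  have hrk : ∀ k : ℕ, ((2 : ℝ) ^ k) ^ (-(ε / 2)) = r ^ k := by
    intro k
    rw [hr, ← Real.rpow_natCast, ← Real.rpow_mul (by norm_num), ← Real.rpow_natCast,
      ← Real.rpow_mul (by norm_num), mul_comm]
  have hvol : ∀ k, volume (E k) ≤
      ENNReal.ofReal (128 * (m + 4) * 2 ^ m * C * ((k : ℝ) + 1) ^ 2 * r ^ k) := by
    intro k
    refine (measure_biUnion_finset_le _ _).trans ?_
    have h1 : ∀ u ∈ U k, volume (⋃ j ∈ Finset.range (4 * k + m + 1),
        ({x : ℝ | |ev u x| ≤ 2 ^ k / 2 ^ j} ×ˢ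
          {y : ℝ | |ev u y| ≤ 2 ^ (j + 1) / 2 ^ k * δ k u})) ≤
        ENNReal.ofReal (128 * (m + 4) * 2 ^ m * ((k : ℝ) + 1) * ((2 : ℝ) ^ k) ^ (-(2 + ε)) *
          wt u) := by
      intro u hu
      rw [hU] at hu
      simp only [Finset.mem_filter] at hu
      obtain ⟨⟨hub, husq⟩, hu4⟩ := hu
      have hrd := rd_pos (ne_of_not_sq husq).2
      have hw := wt_pos u
      have hδ0 : 0 < δ k u := by rw [hδ]; positivity
      refine (measure_biUnion_finset_le _ _).trans ?_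
      have h2 : ∀ j ∈ Finset.range (4 * k + m + 1), volume
          ({x : ℝ | |ev u x| ≤ 2 ^ k / 2 ^ j} ×ˢ
            {y : ℝ | |ev u y| ≤ 2 ^ (j + 1) / 2 ^ k * δ k u}) ≤
          ENNReal.ofReal (128 * δ k u / rd u ^ 2) := by
        intro j _
        rw [Measure.volume_eq_prod, Measure.prod_prod]
        refine (mul_le_mul' (vol_le u husq _) (vol_le u husq _)).trans ?_
        rw [← ENNReal.ofReal_mul (by positivity)]
        apply ENNReal.ofReal_le_ofReal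
        apply le_of_eq
        field_simp
        ring
      refine (Finset.sum_le_sum h2).trans ?_
      rw [Finset.sum_const, Finset.card_range, nsmul_eq_mul, ← ENNReal.ofReal_natCast,
        ← ENNReal.ofReal_mul (Nat.cast_nonneg _)]
      apply ENNReal.ofReal_le_ofReal
      have h3 : (4 : ℝ) ^ k / 2 ^ m ≤ rd u ^ 2 := by
        rw [rd, Real.sq_sqrt (Nat.cast_nonneg _), div_le_iff₀ (by positivity), mul_comm]
        exact hu4
      have h4 : 128 * δ k u / rd u ^ 2 ≤ 128 * δ k u / ((4 : ℝ) ^ k / 2 ^ m) :=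
        div_le_div_of_nonneg_left (by positivity) (by positivity) h3
      have hk : (0 : ℝ) ≤ k := Nat.cast_nonneg k
      have hm : (0 : ℝ) ≤ m := Nat.cast_nonneg m
      have h5 : (((4 * k + m + 1 : ℕ) : ℝ)) ≤ (m + 4) * ((k : ℝ) + 1) := by
        push_cast
        nlinarith [mul_nonneg hm hk]
      have h6 : (4 : ℝ) ^ k = ((2 : ℝ) ^ k) ^ (2 : ℝ) := by
        rw [← Real.rpow_natCast 2 k, ← Real.rpow_mul (by norm_num), mul_comm, Real.rpow_mul
          (by norm_num), Real.rpow_natCast]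
        norm_num
      calc (((4 * k + m + 1 : ℕ) : ℝ)) * (128 * δ k u / rd u ^ 2)
          ≤ ((m + 4) * ((k : ℝ) + 1)) * (128 * δ k u / ((4 : ℝ) ^ k / 2 ^ m)) :=
            mul_le_mul h5 h4 (by positivity) (by positivity)
        _ = 128 * (m + 4) * 2 ^ m * ((k : ℝ) + 1) * (((2 : ℝ) ^ k) ^ (-ε) *
              ((2 : ℝ) ^ k) ^ (-(2 : ℝ))) * wt u := by
            rw [Real.rpow_neg (by positivity) 2, ← h6, hδ]
            field_simp
        _ = _ := by
            rw [← Real.rpow_add (by positivity)]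
            congr 3
            ring
    refine (Finset.sum_le_sum h1).trans ?_
    rw [← ENNReal.ofReal_sum_of_nonneg (fun u _ => by
      have := wt_pos u
      positivity)]
    apply ENNReal.ofReal_le_ofReal
    rw [← Finset.mul_sum]
    have h7 : ∑ u ∈ U k, wt u ≤ C * ((2 : ℝ) ^ k) ^ (2 + ε / 2) * ((k : ℝ) + 1) := by
      refine le_trans ?_ (hsum k)
      exact Finset.sum_le_sum_of_subset_of_nonneg (Finset.filter_subset _ _)
        fun u _ _ => (wt_pos u).le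
    calc _ ≤ 128 * (m + 4) * 2 ^ m * ((k : ℝ) + 1) * ((2 : ℝ) ^ k) ^ (-(2 + ε)) *
          (C * ((2 : ℝ) ^ k) ^ (2 + ε / 2) * ((k : ℝ) + 1)) :=
          mul_le_mul_of_nonneg_left h7 (by positivity)
      _ = 128 * (m + 4) * 2 ^ m * C * ((k : ℝ) + 1) ^ 2 *
          (((2 : ℝ) ^ k) ^ (-(2 + ε)) * ((2 : ℝ) ^ k) ^ (2 + ε / 2)) := by ring
      _ = _ := by
          rw [← Real.rpow_add (by positivity), ← hrk]
          congr 2
          ring
  have hBC := ae_eventually_notMem (tsum_ne_top hr0 hr1 (by positivity) 2 hvol)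
  filter_upwards [hBC] with z hz
  filter_upwards [hz] with k hk u hub husq hu4 hlow hup
  by_contra hcon
  rw [not_lt] at hcon
  apply hk
  rw [hE]
  simp only [Set.mem_iUnion]
  have huU : u ∈ U k := by
    rw [hU]
    exact Finset.mem_filter.2 ⟨Finset.mem_filter.2 ⟨hub, husq⟩, hu4⟩
  -- the largest `j`
  set j := Nat.findGreatest (fun j => |ev u z.1| ≤ 2 ^ k / 2 ^ j) (4 * k + m) with hj
  have hj1 : |ev u z.1| ≤ 2 ^ k / 2 ^ j := by
    have := Nat.findGreatest_spec (P := fun j => |ev u z.1| ≤ 2 ^ k / 2 ^ j) (m := 0)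
      (n := 4 * k + m) (Nat.zero_le _) (by simpa using hup)
    exact this
  have hjle : j ≤ 4 * k + m := Nat.findGreatest_le _
  have hj2 : (2 : ℝ) ^ k / 2 ^ (j + 1) < |ev u z.1| := by
    rcases lt_or_eq_of_le hjle with h | h
    · have := Nat.findGreatest_is_greatest (P := fun j => |ev u z.1| ≤ 2 ^ k / 2 ^ j)
        (n := 4 * k + m) (k := j + 1) (by rw [← hj]; omega) (by omega)
      simpa using this
    · rw [h]
      refine lt_of_le_of_lt ?_ hlow
      apply div_le_div_of_nonneg_left (by positivity) (by positivity)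
      exact pow_le_pow_right₀ (by norm_num) (by omega)
  refine ⟨u, huU, j, Finset.mem_range.2 (by omega), ?_⟩
  rw [Set.mem_prod]
  refine ⟨hj1, ?_⟩
  rw [Set.mem_ofPred_eq]
  have h8 : (2 : ℝ) ^ k / 2 ^ (j + 1) * |ev u z.2| ≤ δ k u :=
    (mul_le_mul_of_nonneg_right hj2.le (abs_nonneg _)).trans hcon
  have h9 : (0 : ℝ) < 2 ^ k / 2 ^ (j + 1) := by positivity
  calc |ev u z.2| = 2 ^ (j + 1) / 2 ^ k * ((2 : ℝ) ^ k / 2 ^ (j + 1) * |ev u z.2|) := by
        field_simp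
    _ ≤ _ := mul_le_mul_of_nonneg_left h8 (by positivity)

/-- passing to two coordinates -/
theorem ae_coord {q : ℕ} {i j : Fin q} (hij : i ≠ j) {P : ℝ × ℝ → Prop}
    (h : ∀ᵐ z : ℝ × ℝ, P z) : ∀ᵐ α : Fin q → ℝ, P (α i, α j) := by
  classical
  set L : (Fin q → ℝ) →ₗ[ℝ] ℝ × ℝ := (LinearMap.proj i).prod (LinearMap.proj j) with hL
  have hsurj : Function.Surjective L := by
    rintro ⟨a, b⟩
    refine ⟨fun k => if k = i then a else b, ?_⟩
    rw [hL]
    simp [hij.symm]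
  obtain ⟨t, ht, htm, ht0⟩ := exists_measurable_superset_of_null (show volume {z | ¬ P z} = 0 from h)
  have h1 : ∀ᵐ y : ℝ × ℝ, y ∈ tᶜ := by
    rw [ae_iff]
    simpa using ht0
  have h2 := (ae_comp_linearMap_mem_iff L (volume : Measure (Fin q → ℝ))
    (volume : Measure (ℝ × ℝ)) hsurj htm.compl).2 h1
  filter_upwards [h2] with α hα
  by_contra hcon
  exact hα (ht hcon)

end Pool.Agent.X124.MV
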