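import Mathlib
import Pool.Agent.X124.MV.Pair
import Pool.Agent.X124.MV.Lin

set_option autoImplicit false

/-!
The deterministic part: from the almost everywhere bounds to the bound for `q` points.
-/

namespace Pool.Agent.X124.MV

open Finset Pool.Agent.H813R3.Voj Filter

lemma abs_coef_le (u : ℤ × ℤ × ℤ) :
    |(u.1 : ℝ)| ≤ hn u ∧ |(u.2.1 : ℝ)| ≤ hn u ∧ |(u.2.2 : ℝ)| ≤ hn u := by
  have h : ∀ a : ℤ, a.natAbs ≤ hn u → |(a : ℝ)| ≤ hn u := by
    intro a ha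
    have h1 : |(a : ℝ)| = (a.natAbs : ℝ) := by rw [Nat.cast_natAbs]; push_cast; rfl
    rw [h1]
    exact_mod_cast ha
  unfold hn at h ⊢
  exact ⟨h _ (le_max_left _ _), h _ ((le_max_left _ _).trans (le_max_right _ _)),
    h _ ((le_max_right _ _).trans (le_max_right _ _))⟩

lemma hn_le {u : ℤ × ℤ × ℤ} {M : ℝ} (h1 : |(u.1 : ℝ)| ≤ M) (h2 : |(u.2.1 : ℝ)| ≤ M)
    (h3 : |(u.2.2 : ℝ)| ≤ M) : (hn u : ℝ) ≤ M := by
  have h : ∀ a : ℤ, |(a : ℝ)| = (a.natAbs : ℝ) := by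
    intro a
    rw [Nat.cast_natAbs]; push_cast; rfl
  rw [h] at h1 h2 h3
  unfold hn
  push_cast
  exact max_le h1 (max_le h2 h3)

/-- three small values -/
lemma det3 {x y z : ℝ} (hxy : x ≠ y) (hxz : x ≠ z) (hyz : y ≠ z) : ∃ c : ℝ, 0 < c ∧
    ∀ c' : ℝ, c' ≤ c → ∀ u : ℤ × ℤ × ℤ, 1 ≤ hn u → |ev u x| ≤ c' * hn u → |ev u y| ≤ c' * hn u →
      |ev u z| ≤ c' * hn u → False := by
  set d : ℝ := (x - y) * (x - z) * (y - z) with hd
  have hd0 : d ≠ 0 := mul_ne_zero (mul_ne_zero (sub_ne_zero.2 hxy) (sub_ne_zero.2 hxz))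
    (sub_ne_zero.2 hyz)
  set K : ℝ := 1 + (|y - z| + |x - z| + |x - y|) +
    (|y ^ 2 - z ^ 2| + |x ^ 2 - z ^ 2| + |x ^ 2 - y ^ 2|) +
    (|y * z * (y - z)| + |x * z * (x - z)| + |x * y * (x - y)|) with hK
  have hK0 : 0 < K := by positivity
  refine ⟨|d| / (2 * K), by positivity, fun c' hc' u hu h1 h2 h3 => ?_⟩
  have hH : (0 : ℝ) < hn u := by exact_mod_cast hu
  have hc : c' * hn u ≤ |d| / (2 * K) * hn u := mul_le_mul_of_nonneg_right hc' hH.le
  set t : ℝ := |d| / (2 * K) * hn u with ht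
  have h1' := h1.trans hc
  have h2' := h2.trans hc
  have h3' := h3.trans hc
  have ht0 : 0 < t := by positivity
  have key : ∀ A B C : ℝ, |A * ev u x + B * ev u y + C * ev u z| ≤ (|A| + |B| + |C|) * t := by
    intro A B C
    calc |A * ev u x + B * ev u y + C * ev u z| ≤ |A * ev u x| + |B * ev u y| + |C * ev u z| :=
          abs_add_three _ _ _
      _ = |A| * |ev u x| + |B| * |ev u y| + |C| * |ev u z| := by rw [abs_mul, abs_mul, abs_mul]
      _ ≤ |A| * t + |B| * t + |C| * t := by gcongr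
      _ = _ := by ring
  have ha : |(u.1 : ℝ)| * |d| ≤ K * t := by
    rw [← abs_mul]
    have : (u.1 : ℝ) * d = (y - z) * ev u x + (-(x - z)) * ev u y + (x - y) * ev u z := by
      rw [hd]; unfold ev; ring
    rw [this]
    refine (key _ _ _).trans (mul_le_mul_of_nonneg_right ?_ ht0.le)
    rw [abs_neg, hK]
    have e1 : 0 ≤ |y ^ 2 - z ^ 2| + |x ^ 2 - z ^ 2| + |x ^ 2 - y ^ 2| := by positivity
    have e2 : 0 ≤ |y * z * (y - z)| + |x * z * (x - z)| + |x * y * (x - y)| := by positivity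
    linarith
  have hb : |(u.2.1 : ℝ)| * |d| ≤ K * t := by
    rw [← abs_mul]
    have : (u.2.1 : ℝ) * d = (-(y ^ 2 - z ^ 2)) * ev u x + (x ^ 2 - z ^ 2) * ev u y +
        (-(x ^ 2 - y ^ 2)) * ev u z := by
      rw [hd]; unfold ev; ring
    rw [this]
    refine (key _ _ _).trans (mul_le_mul_of_nonneg_right ?_ ht0.le)
    rw [abs_neg, abs_neg, hK]
    have e1 : 0 ≤ |y - z| + |x - z| + |x - y| := by positivity
    have e2 : 0 ≤ |y * z * (y - z)| + |x * z * (x - z)| + |x * y * (x - y)| := by positivity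
    linarith
  have hc3 : |(u.2.2 : ℝ)| * |d| ≤ K * t := by
    rw [← abs_mul]
    have : (u.2.2 : ℝ) * d = (y * z * (y - z)) * ev u x + (-(x * z * (x - z))) * ev u y +
        (x * y * (x - y)) * ev u z := by
      rw [hd]; unfold ev; ring
    rw [this]
    refine (key _ _ _).trans (mul_le_mul_of_nonneg_right ?_ ht0.le)
    rw [abs_neg, hK]
    have e1 : 0 ≤ |y - z| + |x - z| + |x - y| := by positivity
    have e2 : 0 ≤ |y ^ 2 - z ^ 2| + |x ^ 2 - z ^ 2| + |x ^ 2 - y ^ 2| := by positivity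
    linarith
  have hdp : 0 < |d| := abs_pos.2 hd0
  have h4 : (hn u : ℝ) ≤ K * t / |d| := by
    refine hn_le ?_ ?_ ?_ <;> rw [le_div_iff₀ hdp] <;> assumption
  have h5 : K * t / |d| = hn u / 2 := by
    rw [ht]; field_simp
  rw [h5] at h4
  linarith

/-- two small values -/
lemma det2 {x y : ℝ} (hxy : x ≠ y) : ∃ c c2 : ℝ, 0 < c ∧ 0 < c2 ∧
    ∀ u : ℤ × ℤ × ℤ, |ev u x| ≤ c * hn u → |ev u y| ≤ c * hn u →
      c2 * (hn u : ℝ) ^ 2 ≤ (ds u).natAbs := by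
  have hs : 0 < |x - y| := abs_pos.2 (sub_ne_zero.2 hxy)
  set K1 : ℝ := 1 + |x + y| + |x * y| with hK1
  set K2 : ℝ := 2 * (1 + |x|) / |x - y| + 1 with hK2
  have hK1p : 0 < K1 := by positivity
  have hK2p : 0 < K2 := by positivity
  set c : ℝ := min (1 / (2 * K2)) (|x - y| ^ 2 / (16 * K1)) with hc
  have hcp : 0 < c := by
    rw [hc]
    exact lt_min (by positivity) (by positivity)
  refine ⟨c, |x - y| ^ 2 / (8 * K1 ^ 2), hcp, by positivity, fun u hp hr => ?_⟩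
  have hH : (0 : ℝ) ≤ hn u := Nat.cast_nonneg _
  set p := ev u x with hpdef
  set r := ev u y with hrdef
  set σ : ℝ := (p - r) / (x - y) with hσ
  have hxy0 : x - y ≠ 0 := sub_ne_zero.2 hxy
  have hσ1 : |σ| ≤ 2 * c * hn u / |x - y| := by
    rw [hσ, abs_div]
    apply div_le_div_of_nonneg_right _ hs.le
    calc |p - r| ≤ |p| + |r| := abs_sub _ _
      _ ≤ 2 * c * hn u := by linarith
  have hb : (u.2.1 : ℝ) = σ - u.1 * (x + y) := by
    rw [hσ, hpdef, hrdef]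
    unfold ev
    field_simp
    ring
  have hc' : (u.2.2 : ℝ) = p - σ * x + u.1 * (x * y) := by
    have : (u.2.2 : ℝ) = p - u.1 * x ^ 2 - u.2.1 * x := by rw [hpdef]; unfold ev; ring
    rw [this, hb]
    ring
  have h1 : (hn u : ℝ) ≤ |(u.1 : ℝ)| * K1 + c * hn u * K2 := by
    have e0 : c * hn u * K2 = (2 * c * hn u / |x - y|) * (1 + |x|) + c * hn u := by
      rw [hK2]; ring
    have hcH : 0 ≤ c * hn u := by positivity
    have e5 : 0 ≤ 2 * c * hn u / |x - y| := by positivity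
    rw [e0, hK1]
    have e1 : 0 ≤ |(u.1 : ℝ)| * |x + y| := by positivity
    have e2 : 0 ≤ |(u.1 : ℝ)| * |x * y| := by positivity
    have e3 : 0 ≤ (2 * c * hn u / |x - y|) * |x| := by positivity
    refine hn_le ?_ ?_ ?_
    · nlinarith [abs_nonneg (u.1 : ℝ)]
    · rw [hb]
      have e4 : |σ - u.1 * (x + y)| ≤ |σ| + |(u.1 : ℝ)| * |x + y| := by
        rw [← abs_mul]; exact abs_sub _ _
      nlinarith [abs_nonneg (u.1 : ℝ)]
    · rw [hc']
      have e4 : |p - σ * x + u.1 * (x * y)| ≤ |p| + |σ| * |x| + |(u.1 : ℝ)| * |x * y| := by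
        rw [← abs_mul, ← abs_mul]
        exact (abs_add_le _ _).trans (add_le_add_left (abs_sub _ _) _)
      have e6 : |σ| * |x| ≤ (2 * c * hn u / |x - y|) * |x| :=
        mul_le_mul_of_nonneg_right hσ1 (abs_nonneg _)
      nlinarith [abs_nonneg (u.1 : ℝ)]
  have h2 : (hn u : ℝ) / (2 * K1) ≤ |(u.1 : ℝ)| := by
    rw [div_le_iff₀ (by positivity)]
    have e1 : c * K2 ≤ 1 / 2 := by
      have : c ≤ 1 / (2 * K2) := min_le_left _ _
      calc c * K2 ≤ 1 / (2 * K2) * K2 := mul_le_mul_of_nonneg_right this hK2p.le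
        _ = 1 / 2 := by field_simp
    have e2 : c * hn u * K2 ≤ 1 / 2 * hn u := by
      calc c * hn u * K2 = (c * K2) * hn u := by ring
        _ ≤ _ := mul_le_mul_of_nonneg_right e1 hH
    linarith
  have h3 : (ds u : ℝ) = (u.1 : ℝ) ^ 2 * (x - y) ^ 2 - 2 * u.1 * (p + r) + σ ^ 2 := by
    have e1 : (ds u : ℝ) = (u.2.1 : ℝ) ^ 2 - 4 * u.1 * u.2.2 := by unfold ds; push_cast; ring
    rw [e1, hc', hb]
    have e2 : σ * (x - y) = p - r := by rw [hσ]; field_simp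
    linear_combination (2 * (u.1 : ℝ)) * e2
  have h4 : |2 * (u.1 : ℝ) * (p + r)| ≤ |(u.1 : ℝ)| * (4 * c * hn u) := by
    rw [abs_mul, abs_mul, abs_of_pos (by norm_num : (0 : ℝ) < 2)]
    have e1 : |p + r| ≤ 2 * c * hn u := (abs_add_le _ _).trans (by linarith)
    calc 2 * |(u.1 : ℝ)| * |p + r| ≤ 2 * |(u.1 : ℝ)| * (2 * c * hn u) :=
          mul_le_mul_of_nonneg_left e1 (by positivity)
      _ = _ := by ring
  have h5 : 4 * c * hn u ≤ |x - y| ^ 2 / (4 * K1) * hn u := by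
    have : c ≤ |x - y| ^ 2 / (16 * K1) := min_le_right _ _
    calc 4 * c * hn u ≤ 4 * (|x - y| ^ 2 / (16 * K1)) * hn u := by gcongr
      _ = _ := by ring
  have h6 : |x - y| ^ 2 / (8 * K1 ^ 2) * (hn u : ℝ) ^ 2 ≤ ds u := by
    rw [h3]
    have e1 : 0 ≤ σ ^ 2 := sq_nonneg _
    have e2 := le_abs_self (2 * (u.1 : ℝ) * (p + r))
    have e3 : (u.1 : ℝ) ^ 2 * (x - y) ^ 2 = |(u.1 : ℝ)| * (|(u.1 : ℝ)| * |x - y| ^ 2) := by
      rw [sq_abs, ← mul_assoc, ← sq, sq_abs]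
    have e4 : |(u.1 : ℝ)| * (4 * c * hn u) ≤ |(u.1 : ℝ)| * (|x - y| ^ 2 / (4 * K1) * hn u) :=
      mul_le_mul_of_nonneg_left h5 (abs_nonneg _)
    have e5 : |(u.1 : ℝ)| * |x - y| ^ 2 ≥ hn u / (2 * K1) * |x - y| ^ 2 :=
      mul_le_mul_of_nonneg_right h2 (by positivity)
    have e6 : |(u.1 : ℝ)| * (|(u.1 : ℝ)| * |x - y| ^ 2) - |(u.1 : ℝ)| * (|x - y| ^ 2 / (4 * K1) *
        hn u) ≥ |(u.1 : ℝ)| * (hn u / (2 * K1) * |x - y| ^ 2 - |x - y| ^ 2 / (4 * K1) * hn u) := by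
      rw [← mul_sub]
      apply mul_le_mul_of_nonneg_left _ (abs_nonneg _)
      linarith
    have e7 : hn u / (2 * K1) * |x - y| ^ 2 - |x - y| ^ 2 / (4 * K1) * hn u =
        |x - y| ^ 2 / (4 * K1) * hn u := by
      field_simp; ring
    rw [e7] at e6
    have e8 : hn u / (2 * K1) * (|x - y| ^ 2 / (4 * K1) * hn u) ≤
        |(u.1 : ℝ)| * (|x - y| ^ 2 / (4 * K1) * hn u) :=
      mul_le_mul_of_nonneg_right h2 (by positivity)
    have e9 : hn u / (2 * K1) * (|x - y| ^ 2 / (4 * K1) * hn u) =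
        |x - y| ^ 2 / (8 * K1 ^ 2) * (hn u : ℝ) ^ 2 := by
      field_simp; ring
    linarith
  refine h6.trans ?_
  rw [Nat.cast_natAbs]
  push_cast
  exact le_abs_self _

/-- the weight is not small -/
lemma wt_ge {u : ℤ × ℤ × ℤ} (hu : ¬ IsSquare (ds u)) : 1 / (3 * (hn u : ℝ)) ≤ wt u := by
  have hn1 : (1 : ℝ) ≤ hn u := by exact_mod_cast one_le_hn hu
  have h1 : ((ds u).natAbs : ℝ) ≤ 9 * (hn u : ℝ) ^ 2 := by
    have h2 := ds_le (mem_box_of_hn (le_refl (hn u)))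
    have h3 : ((ds u).natAbs : ℝ) ≤ 5 * (hn u : ℝ) ^ 2 := by exact_mod_cast h2
    nlinarith
  have h0 : (ds u).natAbs ≠ 0 := Int.natAbs_ne_zero.2 (ne_of_not_sq hu).2
  have h2 : (op (ds u).natAbs : ℝ) ≤ 9 * (hn u : ℝ) ^ 2 := by
    refine le_trans ?_ h1
    obtain ⟨t, ht⟩ := exists_sq (ds u).natAbs h0
    have ht0 : t ≠ 0 := by
      rintro rfl
      apply h0
      rw [ht]; ring
    have h3 : op (ds u).natAbs * 1 ≤ op (ds u).natAbs * t ^ 2 :=
      Nat.mul_le_mul_left _ (Nat.one_le_iff_ne_zero.2 (pow_ne_zero _ ht0))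
    have h4 : op (ds u).natAbs ≤ (ds u).natAbs := by
      calc op (ds u).natAbs = op (ds u).natAbs * 1 := (mul_one _).symm
        _ ≤ _ := h3
        _ = _ := ht.symm
    exact_mod_cast h4
  unfold wt
  have hop : (0 : ℝ) < op (ds u).natAbs := by exact_mod_cast op_pos _
  have h3 : (9 * (hn u : ℝ) ^ 2) ^ (-(1 / 2 : ℝ)) = 1 / (3 * (hn u : ℝ)) := by
    have : 9 * (hn u : ℝ) ^ 2 = (3 * (hn u : ℝ)) ^ (2 : ℝ) := by
      rw [Real.rpow_two]; ring
    rw [this, ← Real.rpow_mul (by positivity), show (2 : ℝ) * (-(1 / 2)) = -1 by norm_num,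
      Real.rpow_neg_one, one_div]
  rw [← h3]
  exact Real.rpow_le_rpow_of_nonpos hop h2 (by norm_num)

lemma wt_le (u : ℤ × ℤ × ℤ) : wt u ≤ 1 := by
  unfold wt
  apply Real.rpow_le_one_of_one_le_of_nonpos _ (by norm_num)
  exact_mod_cast op_pos _

/-- **The product of two small values.** -/
lemma pair_final (ε : ℝ) (hε : 0 < ε) {x y : ℝ} (hxy : x ≠ y)
    (hx : ∃ c : ℝ, 0 < c ∧ ∀ u : ℤ × ℤ × ℤ, ¬ IsSquare (ds u) →
      c * (hn u : ℝ) ^ (-(1 + (1 : ℝ))) * wt u ≤ |ev u x|)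
    (hy : ∃ c : ℝ, 0 < c ∧ ∀ u : ℤ × ℤ × ℤ, ¬ IsSquare (ds u) →
      c * (hn u : ℝ) ^ (-(1 + (1 : ℝ))) * wt u ≤ |ev u y|)
    (hP : ∀ m : ℕ, ∀ᶠ k : ℕ in atTop,
      ∀ u ∈ box (2 ^ k), ¬ IsSquare (ds u) → (4 : ℝ) ^ k ≤ 2 ^ m * (ds u).natAbs →
      (2 : ℝ) ^ k / 2 ^ (4 * k + m) < |ev u x| → |ev u x| ≤ 2 ^ k →
        ((2 : ℝ) ^ k) ^ (-ε) * wt u < |ev u x| * |ev u y|) :
    ∃ c1 c : ℝ, 0 < c1 ∧ 0 < c ∧ ∀ u : ℤ × ℤ × ℤ, ¬ IsSquare (ds u) → |ev u x| ≤ c1 * hn u →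
      |ev u y| ≤ c1 * hn u → c * (hn u : ℝ) ^ (-ε) * wt u ≤ |ev u x| * |ev u y| := by
  obtain ⟨cx, hcx, hX⟩ := hx
  obtain ⟨cy, hcy, hY⟩ := hy
  obtain ⟨c0, c2, hc0, hc2, hdet⟩ := det2 hxy
  obtain ⟨m, hm⟩ := exists_nat_gt (max (4 / c2) (3 / cx))
  have hm4 : 4 / c2 ≤ (2 : ℝ) ^ m := by
    have h1 : (m : ℝ) < 2 ^ m := by exact_mod_cast Nat.lt_two_pow_self
    exact ((le_max_left _ _).trans hm.le).trans h1.le
  have hm3 : 3 / cx < (2 : ℝ) ^ m := by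
    have h1 : (m : ℝ) < 2 ^ m := by exact_mod_cast Nat.lt_two_pow_self
    exact (lt_of_le_of_lt (le_max_right _ _) hm).trans h1
  obtain ⟨k0, hk0⟩ := eventually_atTop.1 (hP m)
  refine ⟨min c0 1, min ((2 : ℝ) ^ (-ε)) (cx * cy / (3 * ((2 : ℝ) ^ k0) ^ 5)), by positivity,
    by positivity, fun u hu h1 h2 => ?_⟩
  have hn1 : 1 ≤ hn u := one_le_hn hu
  have hn1' : (1 : ℝ) ≤ hn u := by exact_mod_cast hn1
  have hw := wt_pos u
  have hr2 : (hn u : ℝ) ^ (-(1 + (1 : ℝ))) = 1 / (hn u : ℝ) ^ 2 := by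
    rw [show -(1 + (1 : ℝ)) = -2 by norm_num, Real.rpow_neg (by positivity), Real.rpow_two,
      one_div]
  have hX' := hX u hu
  have hY' := hY u hu
  rw [hr2] at hX' hY'
  rcases le_total k0 (Nat.clog 2 (hn u)) with hk | hk
  · set k := Nat.clog 2 (hn u) with hkdef
    have h3 : hn u ≤ 2 ^ k := Nat.le_pow_clog (by norm_num) _
    have h4 : 2 ^ k ≤ 2 * hn u := by
      rcases Nat.lt_or_ge 1 (hn u) with h | h
      · have := Nat.pow_pred_clog_lt_self (by norm_num : 1 < 2) h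
        have h4 : Nat.clog 2 (hn u) = (Nat.clog 2 (hn u)).pred + 1 :=
          (Nat.succ_pred_eq_of_pos (Nat.clog_pos (by norm_num) h)).symm
        rw [hkdef, h4, pow_succ]
        omega
      · have : hn u = 1 := le_antisymm h hn1
        rw [hkdef, this]; simp
    have h3' : (hn u : ℝ) ≤ 2 ^ k := by exact_mod_cast h3
    have h4' : (2 : ℝ) ^ k ≤ 2 * hn u := by exact_mod_cast h4
    have h5 : (4 : ℝ) ^ k ≤ 2 ^ m * (ds u).natAbs := by
      have h6 := hdet u (h1.trans (mul_le_mul_of_nonneg_right (min_le_left _ _) (by positivity)))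
        (h2.trans (mul_le_mul_of_nonneg_right (min_le_left _ _) (by positivity)))
      have h7 : (4 : ℝ) ^ k = ((2 : ℝ) ^ k) ^ 2 := by
        rw [← pow_mul, mul_comm, pow_mul]; norm_num
      rw [h7]
      calc ((2 : ℝ) ^ k) ^ 2 ≤ (2 * hn u) ^ 2 := pow_le_pow_left₀ (by positivity) h4' 2
        _ = 4 / c2 * (c2 * (hn u : ℝ) ^ 2) := by field_simp; ring
        _ ≤ 2 ^ m * (ds u).natAbs := mul_le_mul hm4 h6 (by positivity) (by positivity)
    have h8 : (2 : ℝ) ^ k / 2 ^ (4 * k + m) < |ev u x| := by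
      refine lt_of_lt_of_le ?_ hX'
      have h9 := wt_ge hu
      have h10 : cx * (1 / (hn u : ℝ) ^ 2) * (1 / (3 * (hn u : ℝ))) ≤
          cx * (1 / (hn u : ℝ) ^ 2) * wt u := mul_le_mul_of_nonneg_left h9 (by positivity)
      refine lt_of_lt_of_le ?_ h10
      have h11 : cx * (1 / (hn u : ℝ) ^ 2) * (1 / (3 * (hn u : ℝ))) = (cx / 3) / (hn u : ℝ) ^ 3 := by
        field_simp
      have h12 : (2 : ℝ) ^ k / 2 ^ (4 * k + m) = (1 / 2 ^ m) / ((2 : ℝ) ^ k) ^ 3 := by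
        rw [pow_add, mul_comm 4 k, pow_mul]
        field_simp
      rw [h11, h12]
      have h13 : (1 : ℝ) / 2 ^ m < cx / 3 := by
        rw [div_lt_div_iff₀ (by positivity) (by norm_num)]
        rw [div_lt_iff₀ hcx] at hm3
        linarith
      calc (1 : ℝ) / 2 ^ m / ((2 : ℝ) ^ k) ^ 3 < (cx / 3) / ((2 : ℝ) ^ k) ^ 3 :=
            div_lt_div_of_pos_right h13 (by positivity)
        _ ≤ (cx / 3) / (hn u : ℝ) ^ 3 := by
            apply div_le_div_of_nonneg_left (by positivity) (by positivity)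
            exact pow_le_pow_left₀ (by positivity) h3' 3
    have h14 : |ev u x| ≤ 2 ^ k := by
      refine h1.trans (le_trans ?_ h3')
      calc min c0 1 * (hn u : ℝ) ≤ 1 * hn u := mul_le_mul_of_nonneg_right (min_le_right _ _)
            (by positivity)
        _ = _ := one_mul _
    have h15 := hk0 k hk u (mem_box_of_hn h3) hu h5 h8 h14
    refine le_trans (mul_le_mul_of_nonneg_right ?_ hw.le) h15.le
    calc min ((2 : ℝ) ^ (-ε)) (cx * cy / (3 * ((2 : ℝ) ^ k0) ^ 5)) * (hn u : ℝ) ^ (-ε)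
        ≤ (2 : ℝ) ^ (-ε) * (hn u : ℝ) ^ (-ε) :=
          mul_le_mul_of_nonneg_right (min_le_left _ _) (by positivity)
      _ = (2 * (hn u : ℝ)) ^ (-ε) := (Real.mul_rpow (by norm_num) (by positivity)).symm
      _ ≤ ((2 : ℝ) ^ k) ^ (-ε) :=
          Real.rpow_le_rpow_of_nonpos (by positivity) h4' (by linarith)
  · have h3 : hn u ≤ 2 ^ k0 := (Nat.le_pow_clog (by norm_num) _).trans
      (Nat.pow_le_pow_right (by norm_num) hk)
    have h3' : (hn u : ℝ) ≤ 2 ^ k0 := by exact_mod_cast h3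
    have h9 := wt_ge hu
    have h16 : (hn u : ℝ) ^ (-ε) ≤ 1 :=
      Real.rpow_le_one_of_one_le_of_nonpos hn1' (by linarith)
    have h17 : (cx * (1 / (hn u : ℝ) ^ 2) * wt u) * (cy * (1 / (hn u : ℝ) ^ 2) * wt u) ≤
        |ev u x| * |ev u y| := mul_le_mul hX' hY' (by positivity) (abs_nonneg _)
    refine le_trans ?_ h17
    calc min ((2 : ℝ) ^ (-ε)) (cx * cy / (3 * ((2 : ℝ) ^ k0) ^ 5)) * (hn u : ℝ) ^ (-ε) * wt u
        ≤ (cx * cy / (3 * ((2 : ℝ) ^ k0) ^ 5)) * 1 * wt u := by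
          apply mul_le_mul_of_nonneg_right _ hw.le
          exact mul_le_mul (min_le_right _ _) h16 (by positivity) (by positivity)
      _ ≤ (cx * cy / (3 * (hn u : ℝ) ^ 5)) * wt u := by
          rw [mul_one]
          apply mul_le_mul_of_nonneg_right _ hw.le
          apply div_le_div_of_nonneg_left (by positivity) (by positivity)
          have := pow_le_pow_left₀ (by positivity) h3' 5
          linarith
      _ = (cx * (1 / (hn u : ℝ) ^ 2)) * (cy * (1 / (hn u : ℝ) ^ 2) * (1 / (3 * (hn u : ℝ)))) *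
          wt u := by
          field_simp
      _ ≤ (cx * (1 / (hn u : ℝ) ^ 2)) * (cy * (1 / (hn u : ℝ) ^ 2) * wt u) * wt u := by
          gcongr
      _ = _ := by ring

end Pool.Agent.X124.MV
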