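import Mathlib
import Pool.Agent.X124.MV.Det

set_option autoImplicit false

/-!
Almost every `q`-tuple is good; the lower bound for the sum of the logarithms of the values.
-/

namespace Pool.Agent.X124.MV

open Finset Pool.Agent.H813R3.Voj Filter MeasureTheory

lemma exists_pos_le {ι : Type} [Finite ι] (f : ι → ℝ) (hf : ∀ i, 0 < f i) :
    ∃ c : ℝ, 0 < c ∧ ∀ i, c ≤ f i := by
  rcases isEmpty_or_nonempty ι with h | h
  · exact ⟨1, one_pos, fun i => (h.false i).elim⟩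
  · obtain ⟨i, hi⟩ := Finite.exists_min f
    exact ⟨f i, hf i, hi⟩

/-- the size of a linear polynomial -/
def ln (v : ℤ × ℤ) : ℕ := max v.1.natAbs v.2.natAbs

/-- the good tuples -/
def Good {q : ℕ} (α : Fin q → ℝ) : Prop :=
  Function.Injective α ∧ ∀ n : ℕ,
    (∀ i, ∃ c : ℝ, 0 < c ∧ ∀ u : ℤ × ℤ × ℤ, ¬ IsSquare (ds u) →
      c * (hn u : ℝ) ^ (-(1 + 1 / ((n : ℝ) + 1))) * wt u ≤ |ev u (α i)|) ∧
    (∀ i, ∃ c : ℝ, 0 < c ∧ ∀ v : ℤ × ℤ, v.1 ≠ 0 →
      c * (ln v : ℝ) ^ (-(1 + 1 / ((n : ℝ) + 1))) ≤ |(v.1 : ℝ) * α i + v.2|) ∧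
    (∀ i j, i ≠ j → ∃ c1 c : ℝ, 0 < c1 ∧ 0 < c ∧ ∀ u : ℤ × ℤ × ℤ, ¬ IsSquare (ds u) →
      |ev u (α i)| ≤ c1 * hn u → |ev u (α j)| ≤ c1 * hn u →
        c * (hn u : ℝ) ^ (-(1 / ((n : ℝ) + 1))) * wt u ≤ |ev u (α i)| * |ev u (α j)|)

lemma ae_eval {q : ℕ} (i : Fin q) {P : ℝ → Prop} (h : ∀ᵐ x : ℝ, P x) :
    ∀ᵐ α : Fin q → ℝ, P (α i) :=
  (Measure.quasiMeasurePreserving_eval (μ := fun _ : Fin q => (volume : Measure ℝ)) i).ae h

lemma ae_ne {q : ℕ} {i j : Fin q} (hij : i ≠ j) : ∀ᵐ α : Fin q → ℝ, α i ≠ α j := by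
  classical
  set L : (Fin q → ℝ) →ₗ[ℝ] ℝ := (LinearMap.proj i : (Fin q → ℝ) →ₗ[ℝ] ℝ) -
    (LinearMap.proj j : (Fin q → ℝ) →ₗ[ℝ] ℝ) with hL
  have hsurj : Function.Surjective L := by
    intro a
    refine ⟨fun k => if k = i then a else 0, ?_⟩
    rw [hL]
    simp [hij.symm]
  have h1 : ∀ᵐ y : ℝ, y ∈ ({0} : Set ℝ)ᶜ := by
    rw [ae_iff]
    simp
  have h2 := (ae_comp_linearMap_mem_iff L (volume : Measure (Fin q → ℝ))
    (volume : Measure ℝ) hsurj (MeasurableSet.singleton (0 : ℝ)).compl).2 h1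
  filter_upwards [h2] with α hα h
  apply hα
  rw [hL]
  simp [h]

theorem ae_good (q : ℕ) : ∀ᵐ α : Fin q → ℝ, Good α := by
  have h1 : ∀ᵐ α : Fin q → ℝ, ∀ i j, i ≠ j → α i ≠ α j := by
    rw [ae_all_iff]; intro i
    rw [ae_all_iff]; intro j
    by_cases hij : i = j
    · exact Eventually.of_forall fun α h => (h hij).elim
    · filter_upwards [ae_ne hij] with α hα _ using hα
  have h2 : ∀ᵐ α : Fin q → ℝ, ∀ (n : ℕ) (i : Fin q), ∃ c : ℝ, 0 < c ∧ ∀ u : ℤ × ℤ × ℤ,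
      ¬ IsSquare (ds u) →
      c * (hn u : ℝ) ^ (-(1 + 1 / ((n : ℝ) + 1))) * wt u ≤ |ev u (α i)| := by
    rw [ae_all_iff]; intro n
    rw [ae_all_iff]; intro i
    exact ae_eval i (ae_one _ (by positivity))
  have h3 : ∀ᵐ α : Fin q → ℝ, ∀ (n : ℕ) (i : Fin q), ∃ c : ℝ, 0 < c ∧ ∀ v p : ℤ, v ≠ 0 →
      c * ((max v.natAbs p.natAbs : ℕ) : ℝ) ^ (-(1 + 1 / ((n : ℝ) + 1))) ≤
        |(v : ℝ) * α i + p| := by
    rw [ae_all_iff]; intro n
    rw [ae_all_iff]; intro i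
    exact ae_eval i (ae_lin _ (by positivity))
  have h4 : ∀ᵐ α : Fin q → ℝ, ∀ (n : ℕ) (i j : Fin q), i ≠ j → ∀ m : ℕ, ∀ᶠ k : ℕ in atTop,
      ∀ u ∈ box (2 ^ k), ¬ IsSquare (ds u) → (4 : ℝ) ^ k ≤ 2 ^ m * (ds u).natAbs →
      (2 : ℝ) ^ k / 2 ^ (4 * k + m) < |ev u (α i)| → |ev u (α i)| ≤ 2 ^ k →
        ((2 : ℝ) ^ k) ^ (-(1 / ((n : ℝ) + 1))) * wt u < |ev u (α i)| * |ev u (α j)| := by
    rw [ae_all_iff]; intro n
    rw [ae_all_iff]; intro i
    rw [ae_all_iff]; intro j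
    by_cases hij : i = j
    · exact Eventually.of_forall fun α h => (h hij).elim
    · filter_upwards [ae_coord hij (ae_pair (1 / ((n : ℝ) + 1)) (by positivity))] with α hα _
        using hα
  filter_upwards [h1, h2, h3, h4] with α g1 g2 g3 g4
  refine ⟨fun i j hij => by_contra fun h => g1 i j h hij, fun n => ⟨g2 n, ?_, ?_⟩⟩
  · intro i
    obtain ⟨c, hc, h⟩ := g3 n i
    exact ⟨c, hc, fun v hv => h v.1 v.2 hv⟩
  · intro i j hij
    have e1 : (1 : ℝ) + 1 / (((0 : ℕ) : ℝ) + 1) = 1 + 1 := by norm_num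
    have hx := g2 0 i
    have hy := g2 0 j
    rw [e1] at hx hy
    exact pair_final _ (by positivity) (g1 i j hij) hx hy (g4 n i j hij)

lemma log_low {a b c : ℝ} (ha : 0 < a) (hb : 0 < b) (h : a * b ≤ c) :
    Real.log a + Real.log b ≤ Real.log c := by
  rw [← Real.log_mul ha.ne' hb.ne']
  exact Real.log_le_log (by positivity) h

/-- the sum of the logarithms of the values of a quadratic polynomial -/
theorem sum_quad {q : ℕ} {α : Fin q → ℝ} (h : Good α) (ε : ℝ) (hε : 0 < ε) :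
    ∃ C : ℝ, ∀ u : ℤ × ℤ × ℤ, ¬ IsSquare (ds u) →
      (∀ j, ev u (α j) ≠ 0) ∧ ((q : ℝ) - 2 - ε) * Real.log (hn u) + Real.log (wt u) - C ≤
        ∑ j, Real.log |ev u (α j)| := by
  classical
  obtain ⟨hinj, hg⟩ := h
  obtain ⟨n, hn'⟩ := exists_nat_one_div_lt hε
  obtain ⟨g1, -, g3⟩ := hg n
  choose c hc hone using g1
  have g3' : ∀ p : Fin q × Fin q, ∃ c1 c : ℝ, 0 < c1 ∧ 0 < c ∧ (p.1 ≠ p.2 →
      ∀ u : ℤ × ℤ × ℤ, ¬ IsSquare (ds u) →
      |ev u (α p.1)| ≤ c1 * hn u → |ev u (α p.2)| ≤ c1 * hn u →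
        c * (hn u : ℝ) ^ (-(1 / ((n : ℝ) + 1))) * wt u ≤ |ev u (α p.1)| * |ev u (α p.2)|) := by
    intro p
    by_cases hp : p.1 = p.2
    · exact ⟨1, 1, one_pos, one_pos, fun h => (h hp).elim⟩
    · obtain ⟨c1, c, h1, h2, h3⟩ := g3 p.1 p.2 hp
      exact ⟨c1, c, h1, h2, fun _ => h3⟩
  choose d1 d2 hd1 hd2 hpair using g3'
  have g4 : ∀ p : Fin q × Fin q × Fin q, ∃ e : ℝ, 0 < e ∧ (p.1 ≠ p.2.1 → p.1 ≠ p.2.2 →
      p.2.1 ≠ p.2.2 → ∀ c' : ℝ, c' ≤ e → ∀ u : ℤ × ℤ × ℤ, 1 ≤ hn u →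
      |ev u (α p.1)| ≤ c' * hn u → |ev u (α p.2.1)| ≤ c' * hn u →
      |ev u (α p.2.2)| ≤ c' * hn u → False) := by
    intro p
    by_cases hp : p.1 ≠ p.2.1 ∧ p.1 ≠ p.2.2 ∧ p.2.1 ≠ p.2.2
    · obtain ⟨e, h1, h2⟩ := det3 (hinj.ne hp.1) (hinj.ne hp.2.1) (hinj.ne hp.2.2)
      exact ⟨e, h1, fun _ _ _ => h2⟩
    · refine ⟨1, one_pos, fun h1 h2 h3 => (hp ⟨h1, h2, h3⟩).elim⟩
  choose e he htrip using g4
  obtain ⟨a1, ha1, ha1'⟩ := exists_pos_le d1 hd1
  obtain ⟨a2, ha2, ha2'⟩ := exists_pos_le d2 hd2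
  obtain ⟨a3, ha3, ha3'⟩ := exists_pos_le e he
  obtain ⟨a4, ha4, ha4'⟩ := exists_pos_le c hc
  set κ : ℝ := min a1 (min a3 1) with hκ
  have hκ0 : 0 < κ := by rw [hκ]; positivity
  have hκ1 : κ ≤ a1 := min_le_left _ _
  have hκ3 : κ ≤ a3 := (min_le_right _ _).trans (min_le_left _ _)
  have hκ11 : κ ≤ 1 := (min_le_right _ _).trans (min_le_right _ _)
  have hlκ : Real.log κ ≤ 0 := Real.log_nonpos hκ0.le hκ11
  set C : ℝ := (q : ℝ) * (-Real.log κ) + |Real.log a2| + |Real.log a4| with hC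
  refine ⟨C, fun u hu => ?_⟩
  have hn1 : (1 : ℝ) ≤ hn u := by exact_mod_cast one_le_hn hu
  have hL : 0 ≤ Real.log (hn u) := Real.log_nonneg hn1
  have hw := wt_pos u
  have hlw : Real.log (wt u) ≤ 0 := Real.log_nonpos hw.le (wt_le u)
  have hH0 : (0 : ℝ) < hn u := by linarith
  have hev : ∀ j, 0 < |ev u (α j)| := fun j =>
    lt_of_lt_of_le (by have := hc j; positivity) (hone j u hu)
  refine ⟨fun j => abs_pos.1 (hev j), ?_⟩
  have hq0 : (0 : ℝ) ≤ q := Nat.cast_nonneg q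
  have hbig : ∀ j, ¬ |ev u (α j)| ≤ κ * hn u → Real.log κ + Real.log (hn u) ≤
      Real.log |ev u (α j)| := fun j hj =>
    log_low hκ0 hH0 (not_le.1 hj).le
  have habs2 := neg_abs_le (Real.log a2)
  have habs4 := neg_abs_le (Real.log a4)
  have hA2 := abs_nonneg (Real.log a2)
  have hA4 := abs_nonneg (Real.log a4)
  by_cases hsmall : ∃ i, |ev u (α i)| ≤ κ * hn u
  · obtain ⟨i, hi⟩ := hsmall
    have hq1 : 1 ≤ q := by have := i.2; omega
    by_cases hsmall2 : ∃ j, j ≠ i ∧ |ev u (α j)| ≤ κ * hn u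
    · obtain ⟨j, hji, hj⟩ := hsmall2
      have hq2 : 2 ≤ q := by
        have h1 := i.2
        have h2 := j.2
        have h3 : (i : ℕ) ≠ j := fun h => hji (Fin.ext h.symm)
        omega
      have hrest : ∀ l ∈ (Finset.univ.erase i).erase j, Real.log κ + Real.log (hn u) ≤
          Real.log |ev u (α l)| := by
        intro l hl
        rw [Finset.mem_erase, Finset.mem_erase] at hl
        apply hbig
        intro hl'
        exact htrip (i, j, l) (Ne.symm hji) (Ne.symm hl.2.1) (Ne.symm hl.1) κ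
          (hκ3.trans (ha3' _)) u (one_le_hn hu) hi hj hl'
      have hp := hpair (i, j) (Ne.symm hji) u hu
        (hi.trans (mul_le_mul_of_nonneg_right (hκ1.trans (ha1' _)) hH0.le))
        (hj.trans (mul_le_mul_of_nonneg_right (hκ1.trans (ha1' _)) hH0.le))
      have hp2 : Real.log a2 + (-(1 / ((n : ℝ) + 1))) * Real.log (hn u) + Real.log (wt u) ≤
          Real.log |ev u (α i)| + Real.log |ev u (α j)| := by
        rw [← Real.log_mul (hev i).ne' (hev j).ne', ← Real.log_rpow hH0,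
          ← Real.log_mul ha2.ne' (Real.rpow_pos_of_pos hH0 _).ne',
          ← Real.log_mul (by positivity) hw.ne']
        refine Real.log_le_log (by positivity) (le_trans ?_ hp)
        apply mul_le_mul_of_nonneg_right _ hw.le
        exact mul_le_mul_of_nonneg_right (ha2' _) (by positivity)
      have hcard : (((Finset.univ.erase i).erase j : Finset (Fin q)).card : ℝ) = q - 2 := by
        rw [Finset.card_erase_of_mem (Finset.mem_erase.2 ⟨hji, Finset.mem_univ _⟩),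
          Finset.card_erase_of_mem (Finset.mem_univ _), Finset.card_univ, Fintype.card_fin]
        rw [Nat.cast_sub (by omega), Nat.cast_sub (by omega)]
        push_cast
        ring
      have hsum := Finset.sum_le_sum hrest
      rw [Finset.sum_const, nsmul_eq_mul, hcard] at hsum
      rw [← Finset.add_sum_erase _ _ (Finset.mem_univ i),
        ← Finset.add_sum_erase (Finset.univ.erase i) _
          (Finset.mem_erase.2 ⟨hji, Finset.mem_univ _⟩)]
      have hε' : -(ε * Real.log (hn u)) ≤ -(1 / ((n : ℝ) + 1)) * Real.log (hn u) := by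
        nlinarith
      have hq2' : (2 : ℝ) ≤ q := by exact_mod_cast hq2
      have hk : ((q : ℝ) - 2) * Real.log κ ≥ q * Real.log κ := by nlinarith
      nlinarith
    · push Not at hsmall2
      have hrest : ∀ l ∈ Finset.univ.erase i, Real.log κ + Real.log (hn u) ≤
          Real.log |ev u (α l)| := by
        intro l hl
        exact hbig l (not_le.2 (hsmall2 l (Finset.ne_of_mem_erase hl)))
      have hp2 : Real.log a4 + (-(1 + 1 / ((n : ℝ) + 1))) * Real.log (hn u) + Real.log (wt u) ≤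
          Real.log |ev u (α i)| := by
        rw [← Real.log_rpow hH0,
          ← Real.log_mul ha4.ne' (Real.rpow_pos_of_pos hH0 _).ne',
          ← Real.log_mul (by positivity) hw.ne']
        refine Real.log_le_log (by positivity) (le_trans ?_ (hone i u hu))
        apply mul_le_mul_of_nonneg_right _ hw.le
        exact mul_le_mul_of_nonneg_right (ha4' _) (by positivity)
      have hcard : ((Finset.univ.erase i : Finset (Fin q)).card : ℝ) = q - 1 := by
        rw [Finset.card_erase_of_mem (Finset.mem_univ _), Finset.card_univ, Fintype.card_fin]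
        rw [Nat.cast_sub (by omega)]
        push_cast
        ring
      have hsum := Finset.sum_le_sum hrest
      rw [Finset.sum_const, nsmul_eq_mul, hcard] at hsum
      rw [← Finset.add_sum_erase _ _ (Finset.mem_univ i)]
      have hε' : -(ε * Real.log (hn u)) ≤ -(1 / ((n : ℝ) + 1)) * Real.log (hn u) := by
        nlinarith
      have hq1' : (1 : ℝ) ≤ q := by exact_mod_cast hq1
      have hk : ((q : ℝ) - 1) * Real.log κ ≥ q * Real.log κ := by nlinarith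
      nlinarith
  · push Not at hsmall
    have hsum := Finset.sum_le_sum (s := Finset.univ) (fun l _ => hbig l (not_le.2 (hsmall l)))
    rw [Finset.sum_const, nsmul_eq_mul, Finset.card_univ, Fintype.card_fin] at hsum
    nlinarith [mul_nonneg hε.le hL]

/-- two small values of a linear polynomial -/
lemma lin2 {x y : ℝ} (hxy : x ≠ y) : ∃ c : ℝ, 0 < c ∧
    ∀ c' : ℝ, c' ≤ c → ∀ v : ℤ × ℤ, 1 ≤ ln v → |(v.1 : ℝ) * x + v.2| ≤ c' * ln v →
      |(v.1 : ℝ) * y + v.2| ≤ c' * ln v → False := by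
  have hd0 : x - y ≠ 0 := sub_ne_zero.2 hxy
  have hdp : 0 < |x - y| := abs_pos.2 hd0
  set K : ℝ := 2 + |x| + |y| with hK
  have hK0 : 0 < K := by positivity
  refine ⟨|x - y| / (2 * K), by positivity, fun c' hc' v hv h1 h2 => ?_⟩
  have hH : (0 : ℝ) < ln v := by exact_mod_cast hv
  have hc : c' * ln v ≤ |x - y| / (2 * K) * ln v := mul_le_mul_of_nonneg_right hc' hH.le
  set t : ℝ := |x - y| / (2 * K) * ln v with ht
  have h1' := h1.trans hc
  have h2' := h2.trans hc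
  have ht0 : 0 < t := by positivity
  have key : ∀ A B : ℝ, |A * ((v.1 : ℝ) * x + v.2) + B * ((v.1 : ℝ) * y + v.2)| ≤
      (|A| + |B|) * t := by
    intro A B
    calc _ ≤ |A * ((v.1 : ℝ) * x + v.2)| + |B * ((v.1 : ℝ) * y + v.2)| := abs_add_le _ _
      _ = |A| * |(v.1 : ℝ) * x + v.2| + |B| * |(v.1 : ℝ) * y + v.2| := by rw [abs_mul, abs_mul]
      _ ≤ |A| * t + |B| * t := by gcongr
      _ = _ := by ring
  have ha : |(v.1 : ℝ)| * |x - y| ≤ K * t := by
    rw [← abs_mul]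
    have : (v.1 : ℝ) * (x - y) = 1 * ((v.1 : ℝ) * x + v.2) + (-1) * ((v.1 : ℝ) * y + v.2) := by
      ring
    rw [this]
    refine (key _ _).trans (mul_le_mul_of_nonneg_right ?_ ht0.le)
    rw [abs_neg, abs_one, hK]
    have e1 := abs_nonneg x
    have e2 := abs_nonneg y
    linarith
  have hb : |(v.2 : ℝ)| * |x - y| ≤ K * t := by
    rw [← abs_mul]
    have : (v.2 : ℝ) * (x - y) = (-y) * ((v.1 : ℝ) * x + v.2) + x * ((v.1 : ℝ) * y + v.2) := by
      ring
    rw [this]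
    refine (key _ _).trans (mul_le_mul_of_nonneg_right ?_ ht0.le)
    rw [abs_neg, hK]
    linarith
  have h : ∀ a : ℤ, |(a : ℝ)| = (a.natAbs : ℝ) := by
    intro a
    rw [Nat.cast_natAbs]; push_cast; rfl
  have h4 : (ln v : ℝ) ≤ K * t / |x - y| := by
    unfold ln
    push_cast
    rw [h] at ha hb
    apply max_le <;> rw [le_div_iff₀ hdp] <;> assumption
  have h5 : K * t / |x - y| = ln v / 2 := by
    rw [ht]; field_simp
  rw [h5] at h4
  linarith

/-- the sum of the logarithms of the values of a linear polynomial -/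
theorem sum_lin {q : ℕ} {α : Fin q → ℝ} (h : Good α) (ε : ℝ) (hε : 0 < ε) :
    ∃ C : ℝ, ∀ v : ℤ × ℤ, v.1 ≠ 0 →
      (∀ j, (v.1 : ℝ) * α j + v.2 ≠ 0) ∧ ((q : ℝ) - 2 - ε) * Real.log (ln v) - C ≤
        ∑ j, Real.log |(v.1 : ℝ) * α j + v.2| := by
  classical
  obtain ⟨hinj, hg⟩ := h
  obtain ⟨n, hn'⟩ := exists_nat_one_div_lt hε
  obtain ⟨-, g1, -⟩ := hg n
  choose c hc hone using g1
  have g4 : ∀ p : Fin q × Fin q, ∃ e : ℝ, 0 < e ∧ (p.1 ≠ p.2 →
      ∀ c' : ℝ, c' ≤ e → ∀ v : ℤ × ℤ, 1 ≤ ln v → |(v.1 : ℝ) * α p.1 + v.2| ≤ c' * ln v →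
      |(v.1 : ℝ) * α p.2 + v.2| ≤ c' * ln v → False) := by
    intro p
    by_cases hp : p.1 ≠ p.2
    · obtain ⟨e, h1, h2⟩ := lin2 (hinj.ne hp)
      exact ⟨e, h1, fun _ => h2⟩
    · exact ⟨1, one_pos, fun h1 => (hp h1).elim⟩
  choose e he htrip using g4
  obtain ⟨a3, ha3, ha3'⟩ := exists_pos_le e he
  obtain ⟨a4, ha4, ha4'⟩ := exists_pos_le c hc
  set κ : ℝ := min a3 1 with hκ
  have hκ0 : 0 < κ := by rw [hκ]; positivity
  have hκ3 : κ ≤ a3 := min_le_left _ _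
  have hκ11 : κ ≤ 1 := min_le_right _ _
  have hlκ : Real.log κ ≤ 0 := Real.log_nonpos hκ0.le hκ11
  set C : ℝ := (q : ℝ) * (-Real.log κ) + |Real.log a4| with hC
  refine ⟨C, fun v hv => ?_⟩
  have hln : 1 ≤ ln v := le_max_of_le_left (Int.natAbs_pos.2 hv)
  have hn1 : (1 : ℝ) ≤ ln v := by exact_mod_cast hln
  have hL : 0 ≤ Real.log (ln v) := Real.log_nonneg hn1
  have hH0 : (0 : ℝ) < ln v := by linarith
  have hev : ∀ j, 0 < |(v.1 : ℝ) * α j + v.2| := fun j =>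
    lt_of_lt_of_le (by have := hc j; positivity) (hone j v hv)
  refine ⟨fun j => abs_pos.1 (hev j), ?_⟩
  have hq0 : (0 : ℝ) ≤ q := Nat.cast_nonneg q
  have hbig : ∀ j, ¬ |(v.1 : ℝ) * α j + v.2| ≤ κ * ln v → Real.log κ + Real.log (ln v) ≤
      Real.log |(v.1 : ℝ) * α j + v.2| := fun j hj =>
    log_low hκ0 hH0 (not_le.1 hj).le
  have habs4 := neg_abs_le (Real.log a4)
  have hA4 := abs_nonneg (Real.log a4)
  by_cases hsmall : ∃ i, |(v.1 : ℝ) * α i + v.2| ≤ κ * ln v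
  · obtain ⟨i, hi⟩ := hsmall
    have hq1 : 1 ≤ q := by have := i.2; omega
    have hrest : ∀ l ∈ Finset.univ.erase i, Real.log κ + Real.log (ln v) ≤
        Real.log |(v.1 : ℝ) * α l + v.2| := by
      intro l hl
      apply hbig
      intro hl'
      exact htrip (i, l) (Ne.symm (Finset.ne_of_mem_erase hl)) κ (hκ3.trans (ha3' _)) v hln hi hl'
    have hp2 : Real.log a4 + (-(1 + 1 / ((n : ℝ) + 1))) * Real.log (ln v) ≤
        Real.log |(v.1 : ℝ) * α i + v.2| := by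
      rw [← Real.log_rpow hH0, ← Real.log_mul ha4.ne' (Real.rpow_pos_of_pos hH0 _).ne']
      refine Real.log_le_log (by positivity) (le_trans ?_ (hone i v hv))
      exact mul_le_mul_of_nonneg_right (ha4' _) (by positivity)
    have hcard : ((Finset.univ.erase i : Finset (Fin q)).card : ℝ) = q - 1 := by
      rw [Finset.card_erase_of_mem (Finset.mem_univ _), Finset.card_univ, Fintype.card_fin]
      rw [Nat.cast_sub (by omega)]
      push_cast
      ring
    have hsum := Finset.sum_le_sum hrest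
    rw [Finset.sum_const, nsmul_eq_mul, hcard] at hsum
    rw [← Finset.add_sum_erase _ _ (Finset.mem_univ i)]
    have hε' : -(ε * Real.log (ln v)) ≤ -(1 / ((n : ℝ) + 1)) * Real.log (ln v) := by
      nlinarith
    have hq1' : (1 : ℝ) ≤ q := by exact_mod_cast hq1
    have hk : ((q : ℝ) - 1) * Real.log κ ≥ q * Real.log κ := by nlinarith
    nlinarith
  · push Not at hsmall
    have hsum := Finset.sum_le_sum (s := Finset.univ) (fun l _ => hbig l (not_le.2 (hsmall l)))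
    rw [Finset.sum_const, nsmul_eq_mul, Finset.card_univ, Fintype.card_fin] at hsum
    nlinarith [mul_nonneg hε.le hL]

end Pool.Agent.X124.MV
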