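import Mathlib
import Pool.Agent.W226.VQ.Main3
import Pool.Agent.X124.MV.Good

set_option autoImplicit false

/-!
From the values of the minimal polynomial to the proximity function.
-/

namespace Pool.Agent.X124.MV

open Polynomial Finset IntermediateField Pool.Agent.H813R3.Voj Pool.Agent.H990R4.VJ
  Pool.Agent.W226.VQ

lemma norm_eval (f : ℤ[X]) (α : ℝ) : |aeval α f| = |(f.leadingCoeff : ℝ)| *
    ((f.map (Int.castRingHom ℂ)).roots.map fun z => ‖z - (α : ℂ)‖).prod := by
  have h1 : ‖(f.map (Int.castRingHom ℂ)).eval (α : ℂ)‖ = |aeval α f| := by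
    rw [eval_map]
    have : eval₂ (Int.castRingHom ℂ) (α : ℂ) f = ((aeval α f : ℝ) : ℂ) := by
      have h2 := aeval_algebraMap_apply ℂ α f
      rw [aeval_def] at h2
      exact h2
    rw [this, Complex.norm_real, Real.norm_eq_abs]
  rw [← h1]
  have h2 := (IsAlgClosed.splits (f.map (Int.castRingHom ℂ))).eq_prod_roots
  have h3 := congrArg (fun p => ‖p.eval (α : ℂ)‖) h2
  rw [h3, eval_mul, eval_C, norm_mul, eval_multiset_prod, Multiset.map_map,
    leadingCoeff_map_of_injective (RingHom.injective_int _)]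
  congr 1
  · simp
  · have h5 := map_multiset_prod (normHom : ℂ →*₀ ℝ)
      ((f.map (Int.castRingHom ℂ)).roots.map fun z => (X - C z).eval (α : ℂ))
    rw [Multiset.map_map] at h5
    have h6 : Multiset.map (fun z : ℂ => ‖(X - C z).eval (α : ℂ)‖)
        (f.map (Int.castRingHom ℂ)).roots =
        Multiset.map (fun z : ℂ => ‖z - (α : ℂ)‖) (f.map (Int.castRingHom ℂ)).roots := by
      refine Multiset.map_congr rfl fun z _ => ?_
      rw [eval_sub, eval_X, eval_C]
      exact norm_sub_rev (α : ℂ) z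
    exact h5.trans (congrArg Multiset.prod h6)

/-- the sum of the local heights over the conjugates -/
theorem prox_one (f : ℤ[X]) (hf : f ≠ 0) (α : ℝ) (hα : aeval α f ≠ 0) :
    ((f.map (Int.castRingHom ℂ)).roots.map fun z =>
      Real.log (max 1 ‖z‖ * max 1 |α| / ‖z - (α : ℂ)‖)).sum =
      Real.log (mm f) + f.natDegree * Real.log (max 1 |α|) - Real.log |aeval α f| := by
  have hl : (0 : ℝ) < |(f.leadingCoeff : ℝ)| :=
    abs_pos.2 (by exact_mod_cast leadingCoeff_ne_zero.2 hf)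
  have hm0 : ∀ z : ℂ, max 1 ‖z‖ ≠ 0 := fun z => (lt_of_lt_of_le one_pos (le_max_left _ _)).ne'
  have ha0 : max 1 |α| ≠ 0 := (lt_of_lt_of_le one_pos (le_max_left _ _)).ne'
  have hE := norm_eval f α
  have hG0 : ∀ z ∈ (f.map (Int.castRingHom ℂ)).roots, ‖z - (α : ℂ)‖ ≠ 0 := by
    intro z hz h0
    have hp : ((f.map (Int.castRingHom ℂ)).roots.map fun z => ‖z - (α : ℂ)‖).prod = 0 :=
      Multiset.prod_eq_zero (Multiset.mem_map.2 ⟨z, hz, h0⟩)
    rw [hp, mul_zero, abs_eq_zero] at hE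
    exact hα hE
  have hcard : (f.map (Int.castRingHom ℂ)).roots.card = f.natDegree := by
    rw [← (IsAlgClosed.splits (f.map (Int.castRingHom ℂ))).natDegree_eq_card_roots,
      natDegree_map_eq_of_injective (RingHom.injective_int _)]
  have e1 : ((f.map (Int.castRingHom ℂ)).roots.map fun z =>
      Real.log (max 1 ‖z‖ * max 1 |α| / ‖z - (α : ℂ)‖)).sum =
      ((f.map (Int.castRingHom ℂ)).roots.map fun z => Real.log (max 1 ‖z‖)).sum +
      ((f.map (Int.castRingHom ℂ)).roots.map fun _ => Real.log (max 1 |α|)).sum -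
      ((f.map (Int.castRingHom ℂ)).roots.map fun z => Real.log ‖z - (α : ℂ)‖).sum := by
    rw [← Multiset.sum_map_add, ← Multiset.sum_map_sub]
    refine congrArg _ (Multiset.map_congr rfl fun z hz => ?_)
    rw [Real.log_div (mul_ne_zero (hm0 z) ha0) (hG0 z hz), Real.log_mul (hm0 z) ha0]
  have e2 : Real.log (((f.map (Int.castRingHom ℂ)).roots.map fun z => max 1 ‖z‖).prod) =
      ((f.map (Int.castRingHom ℂ)).roots.map fun z => Real.log (max 1 ‖z‖)).sum := by
    rw [Real.log_multiset_prod, Multiset.map_map]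
    · rfl
    · intro x hx h0
      obtain ⟨z, _, hz⟩ := Multiset.mem_map.1 hx
      exact hm0 z (hz.trans h0)
  have e3 : Real.log (((f.map (Int.castRingHom ℂ)).roots.map fun z => ‖z - (α : ℂ)‖).prod) =
      ((f.map (Int.castRingHom ℂ)).roots.map fun z => Real.log ‖z - (α : ℂ)‖).sum := by
    rw [Real.log_multiset_prod, Multiset.map_map]
    · rfl
    · intro x hx h0
      obtain ⟨z, hz', hz⟩ := Multiset.mem_map.1 hx
      exact hG0 z hz' (hz.trans h0)
  have e4 : ((f.map (Int.castRingHom ℂ)).roots.map fun _ => Real.log (max 1 |α|)).sum =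
      f.natDegree * Real.log (max 1 |α|) := by
    rw [Multiset.map_const', Multiset.sum_replicate, hcard, nsmul_eq_mul]
  have hp1 : ((f.map (Int.castRingHom ℂ)).roots.map fun z => max 1 ‖z‖).prod ≠ 0 := by
    intro h0
    obtain ⟨z, _, hz⟩ := Multiset.mem_map.1 (Multiset.prod_eq_zero_iff.1 h0)
    exact hm0 z hz
  have hp2 : ((f.map (Int.castRingHom ℂ)).roots.map fun z => ‖z - (α : ℂ)‖).prod ≠ 0 := by
    intro h0
    obtain ⟨z, hz', hz⟩ := Multiset.mem_map.1 (Multiset.prod_eq_zero_iff.1 h0)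
    exact hG0 z hz' hz
  rw [e1, e4, ← e2, ← e3, mm_eq, hE, Real.log_mul hl.ne' hp1, Real.log_mul hl.ne' hp2]
  ring

/-- the sum over the conjugates of the sum over the points -/
theorem prox_sum {q : ℕ} (f : ℤ[X]) (hf : f ≠ 0) (α : Fin q → ℝ) (hα : ∀ j, aeval (α j) f ≠ 0) :
    ((f.map (Int.castRingHom ℂ)).roots.map fun z =>
      ∑ j, Real.log (max 1 ‖z‖ * max 1 |α j| / ‖z - (α j : ℂ)‖)).sum =
      q * Real.log (mm f) + f.natDegree * ∑ j, Real.log (max 1 |α j|) -
        ∑ j, Real.log |aeval (α j) f| := by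
  have h := Multiset.sum_map_sum_map (f.map (Int.castRingHom ℂ)).roots
    (Finset.univ : Finset (Fin q)).1
    (f := fun z j => Real.log (max 1 ‖z‖ * max 1 |α j| / ‖z - (α j : ℂ)‖))
  have h2 : ((f.map (Int.castRingHom ℂ)).roots.map fun z =>
      ∑ j, Real.log (max 1 ‖z‖ * max 1 |α j| / ‖z - (α j : ℂ)‖)).sum =
      ∑ j, ((f.map (Int.castRingHom ℂ)).roots.map fun z =>
        Real.log (max 1 ‖z‖ * max 1 |α j| / ‖z - (α j : ℂ)‖)).sum := h
  rw [h2, Finset.sum_congr rfl fun j _ => prox_one f hf (α j) (hα j), Finset.sum_sub_distrib,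
    Finset.sum_add_distrib, Finset.sum_const, Finset.card_univ, Fintype.card_fin, nsmul_eq_mul,
    Finset.mul_sum]

/-- the coefficient vector -/
def cu (f : ℤ[X]) : ℤ × ℤ × ℤ := (f.coeff 2, f.coeff 1, f.coeff 0)

lemma ev_cu (f : ℤ[X]) (hf : f.natDegree ≤ 2) (x : ℝ) : ev (cu f) x = aeval x f := by
  rw [aeval_eq_sum_range' (n := 3) (by omega)]
  unfold ev cu
  simp only [Finset.sum_range_succ, Finset.range_zero, Finset.sum_empty, zsmul_eq_mul]
  ring

lemma ds_cu (f : ℤ[X]) : ds (cu f) = dsc (cv f) := by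
  unfold ds cu dsc cv
  simp only [Fin.val_zero, Fin.val_one, Fin.val_two]
  ring

/-- the discriminant of an irreducible quadratic polynomial is not a square -/
lemma not_sq {f : ℤ[X]} (hf : Irreducible f) (hfd : f.natDegree = 2) : ¬ IsSquare (ds (cu f)) := by
  rintro ⟨s, hs⟩
  have hlc : f.coeff 2 ≠ 0 := by
    rw [← hfd, coeff_natDegree, leadingCoeff_ne_zero]; exact hf.ne_zero
  have hlcQ : (f.coeff 2 : ℚ) ≠ 0 := by exact_mod_cast hlc
  have hprim : f.IsPrimitive := hf.isPrimitive (by omega)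
  have hirr : Irreducible (f.map (algebraMap ℤ ℚ)) :=
    (hprim.irreducible_iff_irreducible_map_fraction_map).1 hf
  set y : ℚ := (s - (f.coeff 1 : ℚ)) / (2 * f.coeff 2) with hy
  have hs' : ((f.coeff 1 : ℚ)) ^ 2 - 4 * f.coeff 2 * f.coeff 0 = s * s := by
    have : f.coeff 1 ^ 2 - 4 * f.coeff 2 * f.coeff 0 = s * s := hs
    exact_mod_cast this
  have h3 : aeval y f = 0 := by
    rw [aeval_eq_sum_range' (n := 3) (by omega)]
    simp only [Finset.sum_range_succ, Finset.range_zero, Finset.sum_empty, zsmul_eq_mul]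
    rw [hy]
    field_simp
    linear_combination -hs'
  have h3' : aeval y (f.map (algebraMap ℤ ℚ)) = 0 := by rw [aeval_map_algebraMap]; exact h3
  have h4 : (f.map (algebraMap ℤ ℚ)).degree = 1 :=
    degree_eq_one_of_irreducible_of_root hirr (x := y) (by
      rw [IsRoot.def, ← coe_aeval_eq_eval]; exact h3')
  rw [degree_map_eq_of_injective (RingHom.injective_int _), degree_eq_natDegree hf.ne_zero, hfd] at h4
  norm_num at h4

lemma hn_le_mm (f : ℤ[X]) (hf : f.natDegree = 2) : (hn (cu f) : ℝ) ≤ 4 * mm f := by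
  have h : ∀ j, |(f.coeff j : ℝ)| ≤ 4 * mm f := by
    intro j
    have h1 := coeff_le f j
    rw [hf] at h1
    norm_num at h1
    exact h1
  exact hn_le (h 2) (h 1) (h 0)

lemma mm_le_hn (f : ℤ[X]) (hf : f.natDegree ≤ 2) : mm f ≤ 3 * hn (cu f) := by
  obtain ⟨i, hi, -⟩ := mm_le f hf
  refine hi.trans (mul_le_mul_of_nonneg_left ?_ (by norm_num))
  have h := abs_coef_le (cu f)
  fin_cases i
  · exact h.2.2
  · exact h.2.1
  · exact h.1

lemma log_comp {x y A : ℝ} (hx : 0 < x) (hy : 0 < y) (hA : 0 < A) (h : x ≤ A * y) :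
    Real.log x ≤ Real.log A + Real.log y := by
  rw [← Real.log_mul hA.ne' hy.ne']
  exact Real.log_le_log hx h

end Pool.Agent.X124.MV
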