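import Mathlib
import Pool.Agent.X124.MV.Fin

set_option autoImplicit false

/-!
The inequality for almost every divisor.
-/

namespace Pool.Agent.X124.MV

open Polynomial Finset IntermediateField Pool.Agent.H813R3.Voj Pool.Agent.H990R4.VJ
  Pool.Agent.W226.VQ

open Classical in
/-- the logarithmic discriminant of the field of `x` -/
noncomputable def lD (x : ℂ) : ℝ :=
  if _ : NumberField ℚ⟮x⟯ then
    Real.log |(NumberField.discr ℚ⟮x⟯ : ℝ)| / Module.finrank ℚ ℚ⟮x⟯ else 0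

lemma lD_nonneg (x : ℂ) : 0 ≤ lD x := by
  unfold lD
  split_ifs with h
  · have h1 : (1 : ℝ) ≤ |(NumberField.discr ℚ⟮x⟯ : ℝ)| := by
      have := Int.one_le_abs (NumberField.discr_ne_zero ℚ⟮x⟯)
      exact_mod_cast this
    exact div_nonneg (Real.log_nonneg h1) (Nat.cast_nonneg _)
  · exact le_refl _

lemma log_wt (u : ℤ × ℤ × ℤ) : Real.log (wt u) = -(1 / 2) * Real.log (op (ds u).natAbs) := by
  unfold wt
  rw [Real.log_rpow (by exact_mod_cast op_pos _)]

/-- quadratic points -/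
theorem quad_pt {q : ℕ} {α : Fin q → ℝ} (h : Good α) (ε : ℝ) (hε : 0 < ε) :
    ∃ C : ℝ, ∀ (x : ℂ) (f : ℤ[X]), Irreducible f → f.natDegree = 2 → aeval x f = 0 →
      ((f.map (Int.castRingHom ℂ)).roots.map fun z =>
        ∑ j, Real.log (max 1 ‖z‖ * max 1 |α j| / ‖z - (α j : ℂ)‖)).sum ≤
        (2 + ε) * Real.log (mm f) + lD x + C := by
  obtain ⟨C, hC⟩ := sum_quad h ε hε
  set A : ℝ := ∑ j, Real.log (max 1 |α j|) with hA
  refine ⟨2 * A + C + |(q : ℝ) - 2 - ε| * Real.log 4, fun x f hf hd hx => ?_⟩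
  obtain ⟨h0, h1⟩ := hC (cu f) (not_sq hf hd)
  have hev : ∀ j, aeval (α j) f ≠ 0 := fun j => by rw [← ev_cu f hd.le]; exact h0 j
  rw [prox_sum f hf.ne_zero α hev, ← hA]
  have h2 : ∑ j, Real.log |ev (cu f) (α j)| = ∑ j, Real.log |aeval (α j) f| :=
    Finset.sum_congr rfl fun j _ => by rw [ev_cu f hd.le]
  rw [h2, log_wt, ds_cu] at h1
  have h3 : Real.log (op (dsc (cv f)).natAbs) ≤ 2 * lD x := log_op_le f hf hd x hx
  have hm : 0 < mm f := lt_of_lt_of_le one_pos (one_le_mm hf.ne_zero)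
  have hn1 : (0 : ℝ) < hn (cu f) := by
    exact_mod_cast one_le_hn (not_sq hf hd)
  have h4 := log_comp hn1 hm (by norm_num) (hn_le_mm f hd)
  have h5 := log_comp hm hn1 (by norm_num) (mm_le_hn f hd.le)
  have h6 : Real.log 3 ≤ Real.log 4 := Real.log_le_log (by norm_num) (by norm_num)
  have h7 : |Real.log (hn (cu f)) - Real.log (mm f)| ≤ Real.log 4 := by
    rw [abs_le]; constructor <;> linarith
  have h8 : -(|(q : ℝ) - 2 - ε| * Real.log 4) ≤
      ((q : ℝ) - 2 - ε) * (Real.log (hn (cu f)) - Real.log (mm f)) := by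
    have h9 := neg_abs_le (((q : ℝ) - 2 - ε) * (Real.log (hn (cu f)) - Real.log (mm f)))
    rw [abs_mul] at h9
    have h10 := mul_le_mul_of_nonneg_left h7 (abs_nonneg ((q : ℝ) - 2 - ε))
    linarith
  rw [hd]
  push_cast
  nlinarith

/-- the size of a linear polynomial and the Mahler measure -/
lemma ln_mm (f : ℤ[X]) (hf : f.natDegree = 1) : (ln (f.coeff 1, f.coeff 0) : ℝ) ≤ 2 * mm f ∧
    mm f ≤ 3 * ln (f.coeff 1, f.coeff 0) := by
  have h : ∀ a : ℤ, |(a : ℝ)| = (a.natAbs : ℝ) := by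
    intro a
    rw [Nat.cast_natAbs]; push_cast; rfl
  have hln : (ln (f.coeff 1, f.coeff 0) : ℝ) = max |(f.coeff 1 : ℝ)| |(f.coeff 0 : ℝ)| := by
    unfold ln
    push_cast
    rw [h, h]
  rw [hln]
  constructor
  · have h1 := coeff_le f 1
    have h2 := coeff_le f 0
    rw [hf, pow_one] at h1 h2
    exact max_le (by exact_mod_cast h1) (by exact_mod_cast h2)
  · obtain ⟨i, hi, -⟩ := mm_le f (by omega)
    refine hi.trans (mul_le_mul_of_nonneg_left ?_ (by norm_num))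
    fin_cases i
    · exact le_max_right _ _
    · exact le_max_left _ _
    · have : f.coeff 2 = 0 := coeff_eq_zero_of_natDegree_lt (by omega)
      simp [this]

/-- rational points -/
theorem lin_pt {q : ℕ} {α : Fin q → ℝ} (h : Good α) (ε : ℝ) (hε : 0 < ε) :
    ∃ C : ℝ, ∀ f : ℤ[X], f.natDegree = 1 →
      (∀ j, aeval (α j) f ≠ 0) ∧ ((f.map (Int.castRingHom ℂ)).roots.map fun z =>
        ∑ j, Real.log (max 1 ‖z‖ * max 1 |α j| / ‖z - (α j : ℂ)‖)).sum ≤
        (2 + ε) * Real.log (mm f) + C := by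
  obtain ⟨C, hC⟩ := sum_lin h ε hε
  set A : ℝ := ∑ j, Real.log (max 1 |α j|) with hA
  refine ⟨A + C + |(q : ℝ) - 2 - ε| * Real.log 4, fun f hd => ?_⟩
  have hf0 : f ≠ 0 := by rintro rfl; simp at hd
  have hlc : f.coeff 1 ≠ 0 := by
    rw [← hd, coeff_natDegree, leadingCoeff_ne_zero]; exact hf0
  obtain ⟨h0, h1⟩ := hC (f.coeff 1, f.coeff 0) hlc
  simp only at h0 h1
  have hev' : ∀ j, aeval (α j) f = (f.coeff 1 : ℝ) * α j + f.coeff 0 := by
    intro j
    rw [aeval_eq_sum_range' (n := 2) (by omega)]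
    simp only [Finset.sum_range_succ, Finset.range_zero, Finset.sum_empty, zsmul_eq_mul]
    ring
  have hev : ∀ j, aeval (α j) f ≠ 0 := fun j => by rw [hev' j]; exact h0 j
  refine ⟨hev, ?_⟩
  rw [prox_sum f hf0 α hev, ← hA]
  have h2 : ∑ j, Real.log |(f.coeff 1 : ℝ) * α j + f.coeff 0| =
      ∑ j, Real.log |aeval (α j) f| :=
    Finset.sum_congr rfl fun j _ => by rw [hev' j]
  rw [h2] at h1
  have hm : 0 < mm f := lt_of_lt_of_le one_pos (one_le_mm hf0)
  have hn1 : (0 : ℝ) < ln (f.coeff 1, f.coeff 0) := by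
    have : 1 ≤ ln (f.coeff 1, f.coeff 0) := le_max_of_le_left (Int.natAbs_pos.2 hlc)
    exact_mod_cast this
  obtain ⟨l1, l2⟩ := ln_mm f hd
  have h4 := log_comp hn1 hm (by norm_num) l1
  have h5 := log_comp hm hn1 (by norm_num) l2
  have h6 : Real.log 3 ≤ Real.log 4 := Real.log_le_log (by norm_num) (by norm_num)
  have h6' : Real.log 2 ≤ Real.log 4 := Real.log_le_log (by norm_num) (by norm_num)
  have h7 : |Real.log (ln (f.coeff 1, f.coeff 0)) - Real.log (mm f)| ≤ Real.log 4 := by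
    rw [abs_le]; constructor <;> linarith
  have h8 : -(|(q : ℝ) - 2 - ε| * Real.log 4) ≤
      ((q : ℝ) - 2 - ε) * (Real.log (ln (f.coeff 1, f.coeff 0)) - Real.log (mm f)) := by
    have h9 := neg_abs_le (((q : ℝ) - 2 - ε) *
      (Real.log (ln (f.coeff 1, f.coeff 0)) - Real.log (mm f)))
    rw [abs_mul] at h9
    have h10 := mul_le_mul_of_nonneg_left h7 (abs_nonneg ((q : ℝ) - 2 - ε))
    linarith
  rw [hd]
  push_cast
  nlinarith

end Pool.Agent.X124.MV
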