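import Mathlib
import Pool.Agent.X124.MV.Main

set_option autoImplicit false

/-!
The upper bound for the discriminant of a quadratic field.
-/

namespace Pool.Agent.X124.MV

open Polynomial Finset IntermediateField NumberField Pool.Agent.H813R3.Voj
  Pool.Agent.H990R4.VJ Pool.Agent.W226.VQ

lemma discr_aux {K : Type*} [Field K] [NumberField K] (hfin : Module.finrank ℚ K = 2) (g : K)
    (n : ℤ) (hns : ¬ IsSquare n) (hg2 : g ^ 2 = (n : K)) :
    |NumberField.discr K| ≤ |4 * n| := by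
  have hn : n ≠ 0 := by
    rintro rfl
    exact hns ⟨0, by simp⟩
  have hn' : ∀ b : ℚ, b ^ 2 ≠ (n : ℚ) := by
    intro b hb
    apply hns
    rw [← Rat.isSquare_intCast_iff]
    exact ⟨b, by rw [← hb]; ring⟩
  have hirr := X_pow_sub_C_irreducible_of_prime Nat.prime_two hn'
  have hroot : aeval g (X ^ 2 - C (n : ℚ)) = 0 := by simp [hg2]
  have hmin : minpoly ℚ g = X ^ 2 - C (n : ℚ) :=
    (minpoly.eq_of_irreducible_of_monic hirr hroot (monic_X_pow_sub_C _ two_ne_zero)).symm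
  have htr : Algebra.trace ℚ K g = 0 := by
    rw [trace_eq_finrank_mul_minpoly_nextCoeff, hmin,
      nextCoeff_of_natDegree_pos (by rw [natDegree_X_pow_sub_C]; norm_num),
      natDegree_X_pow_sub_C, coeff_sub, coeff_X_pow, coeff_C]
    norm_num
  have hgint : IsIntegral ℤ g := by
    refine IsIntegral.of_pow (n := 2) (by norm_num) ?_
    rw [hg2]
    exact isIntegral_algebraMap (R := ℤ) (A := K) (x := n)
  obtain ⟨w, hw⟩ : ∃ w : 𝓞 K, (w : K) = g := ⟨⟨g, hgint⟩, rfl⟩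
  have hw2 : w * w = (n : 𝓞 K) := by
    apply RingOfIntegers.ext
    have h5 : ((w * w : 𝓞 K) : K) = (w : K) ^ 2 := by rw [sq]; simp
    have h6 : ((n : 𝓞 K) : K) = (n : K) := by simp
    exact (h5.trans (by rw [hw, hg2])).trans h6.symm
  have htrw : Algebra.trace ℤ (𝓞 K) w = 0 := by
    have := Algebra.coe_trace_int w
    rw [hw, htr] at this
    exact_mod_cast this
  have hfinZ : Module.finrank ℤ (𝓞 K) = 2 := by rw [RingOfIntegers.rank, hfin]
  have htrn : ∀ m : ℤ, Algebra.trace ℤ (𝓞 K) (m : 𝓞 K) = 2 * m := by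
    intro m
    have := Algebra.trace_algebraMap (R := ℤ) (S := 𝓞 K) m
    rw [hfinZ] at this
    simpa using this
  have hcard : Fintype.card (Module.Free.ChooseBasisIndex ℤ (𝓞 K)) = 2 := by
    rw [← Module.finrank_eq_card_chooseBasisIndex, hfinZ]
  set b : Module.Basis (Fin 2) ℤ (𝓞 K) :=
    (RingOfIntegers.basis K).reindex (Fintype.equivFinOfCardEq hcard) with hb
  have hdb : Algebra.discr ℤ b = NumberField.discr K := NumberField.discr_eq_discr K b
  set v : Fin 2 → 𝓞 K := ![1, w] with hv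
  have h1 : Algebra.discr ℤ v = (b.toMatrix v).det ^ 2 * NumberField.discr K := by
    rw [← hdb, ← Algebra.discr_of_matrix_vecMul, b.toMatrix_map_vecMul]
  have h2 : Algebra.discr ℤ v = 4 * n := by
    rw [Algebra.discr_def, Matrix.det_fin_two]
    simp only [Algebra.traceMatrix_apply, Algebra.traceForm_apply, hv, Matrix.cons_val_zero,
      Matrix.cons_val_one]
    have e1 : Algebra.trace ℤ (𝓞 K) (1 * 1) = 2 := by
      have := htrn 1
      simpa using this
    rw [e1, one_mul, mul_one, htrw, hw2, htrn]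
    ring
  have h3 : (4 * n : ℤ) ≠ 0 := by omega
  rw [h2] at h1
  have h4 : (1 : ℤ) ≤ (b.toMatrix v).det ^ 2 := by
    have h5 : (b.toMatrix v).det ≠ 0 := by
      intro h0
      rw [h0] at h1
      apply h3
      rw [h1]; ring
    have := Int.one_le_abs h5
    nlinarith [sq_abs (b.toMatrix v).det]
  rw [h1, abs_mul, abs_of_nonneg (by positivity : (0 : ℤ) ≤ (b.toMatrix v).det ^ 2)]
  exact le_mul_of_one_le_left (abs_nonneg _) h4

/-- upper bound for the discriminant of a quadratic field -/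
theorem abs_discr_le {y : ℂ} {n : ℤ} (hn : ¬ IsSquare n) (hy : y ^ 2 = n)
    [NumberField ℚ⟮y⟯] : Module.finrank ℚ ℚ⟮y⟯ = 2 ∧ |NumberField.discr ℚ⟮y⟯| ≤ |4 * n| := by
  have hn' : ∀ b : ℚ, b ^ 2 ≠ (n : ℚ) := by
    intro b hb
    apply hn
    rw [← Rat.isSquare_intCast_iff]
    exact ⟨b, by rw [← hb]; ring⟩
  have hirr := X_pow_sub_C_irreducible_of_prime Nat.prime_two hn'
  have hroot : aeval y (X ^ 2 - C (n : ℚ)) = 0 := by simp [hy]
  have hmin : minpoly ℚ y = X ^ 2 - C (n : ℚ) :=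
    (minpoly.eq_of_irreducible_of_monic hirr hroot (monic_X_pow_sub_C _ two_ne_zero)).symm
  have hint := isIntegral_of_sq hy
  have hfin : Module.finrank ℚ ℚ⟮y⟯ = 2 := by
    rw [IntermediateField.adjoin.finrank hint, hmin, natDegree_X_pow_sub_C]
  have hg2 : (AdjoinSimple.gen ℚ y) ^ 2 = (n : ℚ⟮y⟯) := by
    apply Subtype.ext
    push_cast
    rw [AdjoinSimple.coe_gen]
    simpa using hy
  exact ⟨hfin, discr_aux hfin _ n hn hg2⟩

/-- upper bound for the logarithmic discriminant of a quadratic point -/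
theorem lD_le (f : ℤ[X]) (hirr : Irreducible f) (hf : f.natDegree = 2) (x : ℂ)
    (hx : aeval x f = 0) : lD x ≤ Real.log (mm f) + Real.log 80 := by
  have hlc : f.coeff 2 ≠ 0 := by
    rw [← hf, coeff_natDegree, leadingCoeff_ne_zero]; exact hirr.ne_zero
  have hy := sq_eq f hf x hx
  unfold lD
  rw [adjoin_eq _ (f.coeff 1) hlc x]
  generalize 2 * (f.coeff 2 : ℂ) * x + f.coeff 1 = y at hy ⊢
  have hnf := numberField_of_sq hy
  rw [dif_pos hnf]
  have hns := not_sq hirr hf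
  rw [ds_cu] at hns
  obtain ⟨h1, h2⟩ := abs_discr_le hns hy
  rw [h1]
  have hm : 0 < mm f := lt_of_lt_of_le one_pos (one_le_mm hirr.ne_zero)
  have h3 : |((dsc (cv f) : ℤ) : ℝ)| ≤ 5 * (hn (cu f) : ℝ) ^ 2 := by
    have h4 := ds_le (mem_box_of_hn (le_refl (hn (cu f))))
    rw [ds_cu] at h4
    have h5 : |((dsc (cv f) : ℤ) : ℝ)| = ((dsc (cv f)).natAbs : ℝ) := by
      rw [Nat.cast_natAbs]; push_cast; rfl
    rw [h5]
    exact_mod_cast h4
  have h6 : |(NumberField.discr ℚ⟮y⟯ : ℝ)| ≤ 4 * |((dsc (cv f) : ℤ) : ℝ)| := by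
    have h7 : |(NumberField.discr ℚ⟮y⟯ : ℝ)| ≤ |4 * ((dsc (cv f) : ℤ) : ℝ)| := by exact_mod_cast h2
    rwa [abs_mul, abs_of_pos (by norm_num : (0 : ℝ) < 4)] at h7
  have h8 := hn_le_mm f hf
  have h9 : (0 : ℝ) ≤ hn (cu f) := Nat.cast_nonneg _
  have h10 : |(NumberField.discr ℚ⟮y⟯ : ℝ)| ≤ (80 * mm f) ^ 2 := by nlinarith
  have h11 : (0 : ℝ) < |(NumberField.discr ℚ⟮y⟯ : ℝ)| := by
    have := NumberField.discr_ne_zero ℚ⟮y⟯
    exact abs_pos.2 (by exact_mod_cast this)
  have h12 := Real.log_le_log h11 h10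
  rw [Real.log_pow, Real.log_mul (by norm_num) hm.ne'] at h12
  push_cast at h12 ⊢
  linarith

end Pool.Agent.X124.MV
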