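import Mathlib
import Pool.Agent.X124.MV.Dsc

set_option autoImplicit false

/-!
Sharpness: quadratic and rational points that are very close to a given good point.
-/

namespace Pool.Agent.X124.MV

open Polynomial Finset IntermediateField Pool.Agent.H813R3.Voj Pool.Agent.H990R4.VJ
  Pool.Agent.W226.VQ

/-- Dirichlet's theorem for `x² , x, 1` -/
lemma dirichlet_two (x y : ℝ) (N : ℕ) (hN : 1 ≤ N) : ∃ a b c : ℤ, (a ≠ 0 ∨ b ≠ 0) ∧
    |(a : ℝ)| ≤ N ∧ |(b : ℝ)| ≤ N ∧ |(a : ℝ) * x + b * y + c| ≤ 1 / (N : ℝ) ^ 2 := by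
  have hN0 : (0 : ℝ) < N := by exact_mod_cast hN
  set g : ℕ × ℕ → ℕ := fun p => ⌊(N : ℝ) ^ 2 * Int.fract ((p.1 : ℝ) * x + p.2 * y)⌋₊ with hg
  have hmaps : Set.MapsTo g (range (N + 1) ×ˢ range (N + 1) : Finset (ℕ × ℕ)) (range (N ^ 2) : Finset ℕ) := by
    intro p _
    rw [Finset.mem_coe, Finset.mem_range, hg]
    simp only
    rw [Nat.floor_lt (mul_nonneg (by positivity) (Int.fract_nonneg _))]
    push_cast
    have := Int.fract_lt_one ((p.1 : ℝ) * x + p.2 * y)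
    have h2 : (0 : ℝ) < (N : ℝ) ^ 2 := by positivity
    nlinarith
  have hcard : (range (N ^ 2)).card < (range (N + 1) ×ˢ range (N + 1)).card := by
    rw [card_product, card_range, card_range]
    nlinarith
  obtain ⟨p, hp, p', hp', hne, heq⟩ := Finset.exists_ne_map_eq_of_card_lt_of_maps_to hcard hmaps
  rw [mem_product, Finset.mem_range, Finset.mem_range] at hp hp'
  set s : ℝ := (p.1 : ℝ) * x + p.2 * y with hs
  set t : ℝ := (p'.1 : ℝ) * x + p'.2 * y with ht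
  refine ⟨(p.1 : ℤ) - p'.1, (p.2 : ℤ) - p'.2, ⌊t⌋ - ⌊s⌋, ?_, ?_, ?_, ?_⟩
  · by_contra h
    push Not at h
    apply hne
    ext <;> omega
  · push_cast
    rw [abs_le]
    have h1 : (p.1 : ℝ) ≤ N := by exact_mod_cast (by omega : p.1 ≤ N)
    have h2 : (p'.1 : ℝ) ≤ N := by exact_mod_cast (by omega : p'.1 ≤ N)
    have h3 : (0 : ℝ) ≤ p.1 := Nat.cast_nonneg _
    have h4 : (0 : ℝ) ≤ p'.1 := Nat.cast_nonneg _
    constructor <;> linarith
  · push_cast
    rw [abs_le]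
    have h1 : (p.2 : ℝ) ≤ N := by exact_mod_cast (by omega : p.2 ≤ N)
    have h2 : (p'.2 : ℝ) ≤ N := by exact_mod_cast (by omega : p'.2 ≤ N)
    have h3 : (0 : ℝ) ≤ p.2 := Nat.cast_nonneg _
    have h4 : (0 : ℝ) ≤ p'.2 := Nat.cast_nonneg _
    constructor <;> linarith
  · have h5 : (((p.1 : ℤ) - p'.1 : ℤ) : ℝ) * x + (((p.2 : ℤ) - p'.2 : ℤ) : ℝ) * y +
        ((⌊t⌋ - ⌊s⌋ : ℤ) : ℝ) = Int.fract s - Int.fract t := by
      rw [← Int.self_sub_floor, ← Int.self_sub_floor, hs, ht]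
      push_cast
      ring
    rw [h5]
    have e1 := Nat.floor_le (mul_nonneg (by positivity : (0 : ℝ) ≤ (N : ℝ) ^ 2)
      (Int.fract_nonneg s))
    have e2 := Nat.lt_floor_add_one ((N : ℝ) ^ 2 * Int.fract s)
    have e3 := Nat.floor_le (mul_nonneg (by positivity : (0 : ℝ) ≤ (N : ℝ) ^ 2)
      (Int.fract_nonneg t))
    have e4 := Nat.lt_floor_add_one ((N : ℝ) ^ 2 * Int.fract t)
    have e5' : ⌊(N : ℝ) ^ 2 * Int.fract s⌋₊ = ⌊(N : ℝ) ^ 2 * Int.fract t⌋₊ := heq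
    have e5 : (⌊(N : ℝ) ^ 2 * Int.fract s⌋₊ : ℝ) = ⌊(N : ℝ) ^ 2 * Int.fract t⌋₊ := by
      rw [e5']
    rw [le_div_iff₀ (by positivity)]
    have e6 : |Int.fract s - Int.fract t| * (N : ℝ) ^ 2 =
        |(N : ℝ) ^ 2 * Int.fract s - (N : ℝ) ^ 2 * Int.fract t| := by
      rw [← mul_sub, abs_mul, abs_of_pos (by positivity : (0 : ℝ) < (N : ℝ) ^ 2)]
      ring
    rw [e6, abs_le]
    constructor <;> linarith

/-- lower bound for linear and constant polynomials -/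
lemma low_lin {x : ℝ} (h : ∃ c : ℝ, 0 < c ∧ ∀ v : ℤ × ℤ, v.1 ≠ 0 →
      c * (ln v : ℝ) ^ (-(1 + 1 / (((1 : ℕ) : ℝ) + 1))) ≤ |(v.1 : ℝ) * x + v.2|) :
    ∃ c : ℝ, 0 < c ∧ ∀ g : ℤ[X], g ≠ 0 → g.natDegree ≤ 1 →
      c * (mm g) ^ (-(3 / 2 : ℝ)) ≤ |aeval x g| := by
  obtain ⟨c, hc, h⟩ := h
  refine ⟨min (c * (2 : ℝ) ^ (-(3 / 2 : ℝ))) 1, by positivity, fun g hg hd => ?_⟩
  have hm1 : 1 ≤ mm g := one_le_mm hg
  have hm : 0 < mm g := by linarith
  have hp : 0 ≤ (mm g) ^ (-(3 / 2 : ℝ)) := Real.rpow_nonneg hm.le _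
  rcases Nat.le_one_iff_eq_zero_or_eq_one.1 hd with hd | hd
  · rw [natDegree_eq_zero] at hd
    obtain ⟨a, rfl⟩ := hd
    have ha : a ≠ 0 := by rintro rfl; simp at hg
    have h1 : (1 : ℝ) ≤ |(a : ℝ)| := by exact_mod_cast Int.one_le_abs ha
    have h2 : (mm (C a)) ^ (-(3 / 2 : ℝ)) ≤ 1 :=
      Real.rpow_le_one_of_one_le_of_nonpos hm1 (by norm_num)
    have h3 : aeval x (C a) = (a : ℝ) := by simp
    rw [h3]
    calc _ ≤ 1 * (mm (C a)) ^ (-(3 / 2 : ℝ)) := mul_le_mul_of_nonneg_right (min_le_right _ _) hp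
      _ ≤ 1 * 1 := by linarith
      _ ≤ _ := by linarith
  · have hlc : g.coeff 1 ≠ 0 := by
      rw [← hd, coeff_natDegree, leadingCoeff_ne_zero]; exact hg
    have h1 := h (g.coeff 1, g.coeff 0) hlc
    have hev' : aeval x g = (g.coeff 1 : ℝ) * x + g.coeff 0 := by
      rw [aeval_eq_sum_range' (n := 2) (by omega)]
      simp only [Finset.sum_range_succ, Finset.range_zero, Finset.sum_empty, zsmul_eq_mul]
      ring
    rw [hev']
    refine le_trans ?_ h1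
    have e : (-(1 + 1 / (((1 : ℕ) : ℝ) + 1))) = (-(3 / 2 : ℝ)) := by norm_num
    rw [e]
    have hl0 : (0 : ℝ) < ln (g.coeff 1, g.coeff 0) := by
      have : 1 ≤ ln (g.coeff 1, g.coeff 0) := le_max_of_le_left (Int.natAbs_pos.2 hlc)
      exact_mod_cast this
    have h2 : (2 * mm g) ^ (-(3 / 2 : ℝ)) ≤ (ln (g.coeff 1, g.coeff 0) : ℝ) ^ (-(3 / 2 : ℝ)) :=
      Real.rpow_le_rpow_of_nonpos hl0 (ln_mm g hd).1 (by norm_num)
    rw [Real.mul_rpow (by norm_num) hm.le] at h2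
    calc _ ≤ (c * (2 : ℝ) ^ (-(3 / 2 : ℝ))) * (mm g) ^ (-(3 / 2 : ℝ)) :=
          mul_le_mul_of_nonneg_right (min_le_left _ _) hp
      _ = c * ((2 : ℝ) ^ (-(3 / 2 : ℝ)) * (mm g) ^ (-(3 / 2 : ℝ))) := by ring
      _ ≤ _ := mul_le_mul_of_nonneg_left h2 hc.le

lemma mm_mul' (f g : ℤ[X]) : mm (f * g) = mm f * mm g := by
  unfold mm
  rw [Polynomial.map_mul, mahlerMeasure_mul]

lemma mm_C (a : ℤ) : mm (C a) = |(a : ℝ)| := by
  unfold mm
  rw [map_C, mahlerMeasure_const]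
  simp

/-- the primitive part is smaller -/
lemma prim_small (P : ℤ[X]) (hP : P ≠ 0) (x : ℝ) :
    mm P.primPart ≤ mm P ∧ |aeval x P.primPart| ≤ |aeval x P| := by
  have hc : P.content ≠ 0 := content_eq_zero_iff.not.2 hP
  have hc1 : (1 : ℝ) ≤ |(P.content : ℝ)| := by exact_mod_cast Int.one_le_abs hc
  have h := P.eq_C_content_mul_primPart
  have hp0 : P.primPart ≠ 0 := P.isPrimitive_primPart.ne_zero
  constructor
  · have h1 := congrArg mm h
    rw [mm_mul', mm_C] at h1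
    rw [h1]
    have := one_le_mm hp0
    nlinarith
  · have h1 := congrArg (fun p => |aeval x p|) h
    simp only [map_mul, aeval_C, abs_mul] at h1
    rw [h1]
    have h2 : |(algebraMap ℤ ℝ) P.content| = |(P.content : ℝ)| := by simp
    rw [h2]
    have := abs_nonneg (aeval x P.primPart)
    nlinarith

/-- a primitive quadratic polynomial that is not a product of two linear ones is irreducible -/
lemma irr_of_not_prod (P : ℤ[X])
    (h : ∀ g h : ℤ[X], g.natDegree ≤ 1 → h.natDegree ≤ 1 → P ≠ g * h) (hd : P.natDegree ≤ 2) :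
    Irreducible P.primPart ∧ P.primPart.natDegree = 2 := by
  have hd2 : P.natDegree = 2 := by
    by_contra hne
    exact h P 1 (by omega) (by simp) (by rw [mul_one])
  have hpd : P.primPart.natDegree = 2 := by rw [natDegree_primPart]; exact hd2
  refine ⟨⟨?_, ?_⟩, hpd⟩
  · intro hu
    have := natDegree_eq_zero_of_isUnit hu
    omega
  · intro a b hab
    have hprim : P.primPart.IsPrimitive := P.isPrimitive_primPart
    have ha0 : a ≠ 0 := by
      rintro rfl; rw [zero_mul] at hab; exact hprim.ne_zero hab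
    have hb0 : b ≠ 0 := by
      rintro rfl; rw [mul_zero] at hab; exact hprim.ne_zero hab
    have hdeg : a.natDegree + b.natDegree = 2 := by
      rw [← natDegree_mul ha0 hb0, ← hab, hpd]
    by_contra hne
    push Not at hne
    have key : ∀ c : ℤ[X], c ∣ P.primPart → c.natDegree = 0 → IsUnit c := by
      intro c hc hc0
      rw [natDegree_eq_zero] at hc0
      obtain ⟨m, rfl⟩ := hc0
      exact (hprim m hc).map C
    have ha1 : a.natDegree ≠ 0 := fun h0 => hne.1 (key a ⟨b, hab⟩ h0)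
    have hb1 : b.natDegree ≠ 0 := fun h0 => hne.2 (key b ⟨a, by rw [hab, mul_comm]⟩ h0)
    apply h (C P.content * a) b ?_ (by omega)
    · rw [mul_assoc, ← hab]
      exact P.eq_C_content_mul_primPart
    · exact (natDegree_C_mul_le _ _).trans (by omega)

/-- the value of a quadratic polynomial -/
lemma ev_le (f : ℤ[X]) (hf : f.natDegree = 2) (x : ℝ) :
    |aeval x f| ≤ 12 * mm f * max 1 |x| ^ 2 := by
  rw [← ev_cu f hf.le]
  have h1 := hn_le_mm f hf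
  obtain ⟨a1, a2, a3⟩ := abs_coef_le (cu f)
  have hm : (1 : ℝ) ≤ max 1 |x| := le_max_left _ _
  have hx : |x| ≤ max 1 |x| := le_max_right _ _
  set M := max 1 |x| with hM
  have h0 : (0 : ℝ) ≤ hn (cu f) := Nat.cast_nonneg _
  have hx0 := abs_nonneg x
  have hx2 : |x| ^ 2 ≤ M ^ 2 := pow_le_pow_left₀ hx0 hx 2
  have hx1 : |x| ≤ M ^ 2 := by nlinarith
  have h11 : (1 : ℝ) ≤ M ^ 2 := by nlinarith
  unfold ev
  calc _ ≤ |((cu f).1 : ℝ) * x ^ 2 + (cu f).2.1 * x| + |((cu f).2.2 : ℝ)| := abs_add_le _ _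
    _ ≤ |((cu f).1 : ℝ) * x ^ 2| + |((cu f).2.1 : ℝ) * x| + |((cu f).2.2 : ℝ)| := by
        gcongr; exact abs_add_le _ _
    _ = |((cu f).1 : ℝ)| * |x| ^ 2 + |((cu f).2.1 : ℝ)| * |x| + |((cu f).2.2 : ℝ)| := by
        rw [abs_mul, abs_mul, abs_pow]
    _ ≤ hn (cu f) * M ^ 2 + hn (cu f) * M ^ 2 + hn (cu f) * M ^ 2 := by
        have e1 := mul_le_mul a1 hx2 (by positivity) h0
        have e2 := mul_le_mul a2 hx1 hx0 h0
        nlinarith
    _ ≤ _ := by nlinarith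

/-- **Quadratic points that are very close to a good point.** -/
theorem exists_quad {x : ℝ} (h1 : ∃ c : ℝ, 0 < c ∧ ∀ v : ℤ × ℤ, v.1 ≠ 0 →
      c * (ln v : ℝ) ^ (-(1 + 1 / (((1 : ℕ) : ℝ) + 1))) ≤ |(v.1 : ℝ) * x + v.2|)
    (h2 : ∃ c : ℝ, 0 < c ∧ ∀ u : ℤ × ℤ × ℤ, ¬ IsSquare (ds u) →
      c * (hn u : ℝ) ^ (-(1 + 1 / (((0 : ℕ) : ℝ) + 1))) * wt u ≤ |ev u x|) :
    ∃ K : ℝ, 1 ≤ K ∧ ∀ R : ℝ, ∃ f : ℤ[X], Irreducible f ∧ f.natDegree = 2 ∧ R ≤ mm f ∧
      |aeval x f| ≤ K / (mm f) ^ 2 := by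
  obtain ⟨c, hc, hlow⟩ := low_lin h1
  obtain ⟨d, hd, hlow2⟩ := h2
  set B : ℝ := 3 * (x ^ 2 + |x| + 1) with hB
  have hB1 : 1 ≤ B := by rw [hB]; have := abs_nonneg x; nlinarith [sq_nonneg x]
  refine ⟨B ^ 2, one_le_pow₀ hB1, fun R => ?_⟩
  -- the choice of the parameter
  obtain ⟨N, hN1, hN2, hN3⟩ : ∃ N : ℕ, 1 ≤ N ∧ (B ^ 3 / c ^ 4 : ℝ) < N ∧
      (192 * |R| ^ 3 / d + 192 / d : ℝ) < N := by
    obtain ⟨N, hN⟩ := exists_nat_gt (max 1 (max (B ^ 3 / c ^ 4) (192 * |R| ^ 3 / d + 192 / d)))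
    refine ⟨N, ?_, lt_of_le_of_lt ((le_max_left _ _).trans (le_max_right _ _)) hN,
      lt_of_le_of_lt ((le_max_right _ _).trans (le_max_right _ _)) hN⟩
    have := lt_of_le_of_lt (le_max_left _ _) hN
    exact_mod_cast this.le
  have hNr : (1 : ℝ) ≤ N := by exact_mod_cast hN1
  have hN0 : (0 : ℝ) < N := by linarith
  obtain ⟨a, b, e, hab, ha, hb, hv⟩ := dirichlet_two (x ^ 2) x N hN1
  set P : ℤ[X] := C a * X ^ 2 + C b * X + C e with hP
  have hPc2 : P.coeff 2 = a := by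
    rw [hP]
    simp only [coeff_add, coeff_C_mul, coeff_X_pow, coeff_X, coeff_C]
    norm_num
  have hPc1 : P.coeff 1 = b := by
    rw [hP]
    simp only [coeff_add, coeff_C_mul, coeff_X_pow, coeff_X, coeff_C]
    norm_num
  have hPc0 : P.coeff 0 = e := by
    rw [hP]
    simp only [coeff_add, coeff_C_mul, coeff_X_pow, coeff_X, coeff_C]
    norm_num
  have hP0 : P ≠ 0 := by
    intro h0
    rw [h0, coeff_zero] at hPc2 hPc1
    rcases hab with h | h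
    · exact h hPc2.symm
    · exact h hPc1.symm
  have hPd : P.natDegree ≤ 2 := by rw [hP]; exact natDegree_quadratic_le
  have hPev : aeval x P = (a : ℝ) * x ^ 2 + b * x + e := by
    rw [hP]; simp
  have hval : |aeval x P| ≤ 1 / (N : ℝ) ^ 2 := by rw [hPev]; exact hv
  -- the size of `P`
  have he : |(e : ℝ)| ≤ (x ^ 2 + |x| + 1) * N := by
    have e1 : (e : ℝ) = ((a : ℝ) * x ^ 2 + b * x + e) - ((a : ℝ) * x ^ 2) - (b * x) := by ring
    rw [e1]
    have e2 : 1 / (N : ℝ) ^ 2 ≤ N := by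
      rw [div_le_iff₀ (by positivity)]
      nlinarith [sq_nonneg ((N : ℝ) - 1), mul_nonneg hN0.le (sq_nonneg ((N : ℝ)))]
    have e3 : |(a : ℝ) * x ^ 2| ≤ N * x ^ 2 := by
      rw [abs_mul, abs_of_nonneg (sq_nonneg x)]
      exact mul_le_mul_of_nonneg_right ha (sq_nonneg x)
    have e4 : |(b : ℝ) * x| ≤ N * |x| := by
      rw [abs_mul]
      exact mul_le_mul_of_nonneg_right hb (abs_nonneg x)
    calc _ ≤ |((a : ℝ) * x ^ 2 + b * x + e) - ((a : ℝ) * x ^ 2)| + |(b : ℝ) * x| := abs_sub _ _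
      _ ≤ |(a : ℝ) * x ^ 2 + b * x + e| + |(a : ℝ) * x ^ 2| + |(b : ℝ) * x| := by
          gcongr; exact abs_sub _ _
      _ ≤ N + N * x ^ 2 + N * |x| := by linarith
      _ = _ := by ring
  have hBN : (N : ℝ) ≤ (x ^ 2 + |x| + 1) * N := by
    have : (1 : ℝ) ≤ x ^ 2 + |x| + 1 := by
      have := abs_nonneg x
      nlinarith [sq_nonneg x]
    nlinarith
  have hhn : (hn (cu P) : ℝ) ≤ (x ^ 2 + |x| + 1) * N := by
    apply hn_le
    · show |((P.coeff 2 : ℤ) : ℝ)| ≤ _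
      rw [hPc2]; exact ha.trans hBN
    · show |((P.coeff 1 : ℤ) : ℝ)| ≤ _
      rw [hPc1]; exact hb.trans hBN
    · show |((P.coeff 0 : ℤ) : ℝ)| ≤ _
      rw [hPc0]; exact he
  have hmm : mm P ≤ B * N := by
    have := mm_le_hn P hPd
    rw [hB]; nlinarith
  have hmmP : 1 ≤ mm P := one_le_mm hP0
  -- `P` is not a product of two linear polynomials
  have hprod : ∀ g h : ℤ[X], g.natDegree ≤ 1 → h.natDegree ≤ 1 → P ≠ g * h := by
    intro g h hg hh hgh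
    have hg0 : g ≠ 0 := by rintro rfl; rw [zero_mul] at hgh; exact hP0 hgh
    have hh0 : h ≠ 0 := by rintro rfl; rw [mul_zero] at hgh; exact hP0 hgh
    have l1 := hlow g hg0 hg
    have l2 := hlow h hh0 hh
    have hg1 := one_le_mm hg0
    have hh1 := one_le_mm hh0
    have l3 : c * mm g ^ (-(3 / 2 : ℝ)) * (c * mm h ^ (-(3 / 2 : ℝ))) ≤ |aeval x P| := by
      rw [hgh, map_mul, abs_mul]
      exact mul_le_mul l1 l2 (by positivity) (abs_nonneg _)
    have l4 : c * mm g ^ (-(3 / 2 : ℝ)) * (c * mm h ^ (-(3 / 2 : ℝ))) =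
        c ^ 2 * mm P ^ (-(3 / 2 : ℝ)) := by
      rw [hgh, mm_mul', Real.mul_rpow (by linarith) (by linarith)]
      ring
    rw [l4] at l3
    have l5 : c ^ 2 * (B * N) ^ (-(3 / 2 : ℝ)) ≤ 1 / (N : ℝ) ^ 2 := by
      refine le_trans ?_ (l3.trans hval)
      exact mul_le_mul_of_nonneg_left
        (Real.rpow_le_rpow_of_nonpos (by linarith) hmm (by norm_num)) (by positivity)
    have l6 : (c ^ 2 * (B * N) ^ (-(3 / 2 : ℝ))) ^ 2 ≤ (1 / (N : ℝ) ^ 2) ^ 2 :=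
      pow_le_pow_left₀ (by positivity) l5 2
    have l7 : (c ^ 2 * (B * N) ^ (-(3 / 2 : ℝ))) ^ 2 = c ^ 4 / (B * N) ^ 3 := by
      rw [mul_pow, ← Real.rpow_natCast ((B * N) ^ (-(3 / 2 : ℝ))) 2, ← Real.rpow_mul (by positivity),
        show (-(3 / 2 : ℝ)) * ((2 : ℕ) : ℝ) = -((3 : ℕ) : ℝ) by norm_num,
        Real.rpow_neg (by positivity), Real.rpow_natCast, div_eq_mul_inv]
      ring
    rw [l7, div_pow, one_pow, div_le_div_iff₀ (by positivity) (by positivity), one_mul] at l6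
    rw [div_lt_iff₀ (by positivity)] at hN2
    have l8 : (B * N) ^ 3 < c ^ 4 * ((N : ℝ) ^ 2) ^ 2 := by
      have : (B * N) ^ 3 = B ^ 3 * (N : ℝ) ^ 3 := by ring
      rw [this]
      have h9 : 0 < (N : ℝ) ^ 3 := by positivity
      calc B ^ 3 * (N : ℝ) ^ 3 < (N * c ^ 4) * (N : ℝ) ^ 3 := mul_lt_mul_of_pos_right hN2 h9
        _ = _ := by ring
    linarith
  obtain ⟨hirr, hdeg⟩ := irr_of_not_prod P hprod hPd
  obtain ⟨hm2, hv2⟩ := prim_small P hP0 x
  set f := P.primPart with hf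
  have hmf := one_le_mm hirr.ne_zero
  refine ⟨f, hirr, hdeg, ?_, ?_⟩
  · -- the Mahler measure is large
    by_contra hlt
    push Not at hlt
    have hns := not_sq hirr hdeg
    have k1 := hlow2 (cu f) hns
    have k2 := wt_ge hns
    have hn1 : (1 : ℝ) ≤ hn (cu f) := by exact_mod_cast one_le_hn hns
    have k3 := hn_le_mm f hdeg
    have k4 : ((hn (cu f) : ℝ)) ^ (-(1 + 1 / (((0 : ℕ) : ℝ) + 1))) = 1 / (hn (cu f) : ℝ) ^ 2 := by
      have e1 : (-(1 + 1 / (((0 : ℕ) : ℝ) + 1))) = (-(2 : ℕ) : ℝ) := by norm_num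
      rw [e1, Real.rpow_neg (by linarith), Real.rpow_natCast, one_div]
    rw [k4, ev_cu f hdeg.le] at k1
    have k5 : d * (1 / (hn (cu f) : ℝ) ^ 2) * (1 / (3 * (hn (cu f) : ℝ))) ≤ 1 / (N : ℝ) ^ 2 := by
      refine le_trans ?_ (k1.trans (hv2.trans hval))
      exact mul_le_mul_of_nonneg_left k2 (by positivity)
    have k6 : d * (1 / (hn (cu f) : ℝ) ^ 2) * (1 / (3 * (hn (cu f) : ℝ))) =
        d / (3 * (hn (cu f) : ℝ) ^ 3) := by
      field_simp
    rw [k6, div_le_div_iff₀ (by positivity) (by positivity), one_mul] at k5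
    have hR : (hn (cu f) : ℝ) ≤ 4 * |R| := by
      have := le_abs_self R
      linarith
    have k7 : (hn (cu f) : ℝ) ^ 3 ≤ 64 * |R| ^ 3 := by
      have := pow_le_pow_left₀ (by linarith : (0 : ℝ) ≤ hn (cu f)) hR 3
      calc _ ≤ (4 * |R|) ^ 3 := this
        _ = _ := by ring
    have k8 : 192 * |R| ^ 3 + 192 < N * d := by
      rw [← add_div, div_lt_iff₀ hd] at hN3
      exact hN3
    have k9 : (N : ℝ) * d ≤ d * (N : ℝ) ^ 2 := by
      have : 0 ≤ d * (N : ℝ) * ((N : ℝ) - 1) :=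
        mul_nonneg (by positivity) (by linarith)
      nlinarith
    linarith
  · -- the value
    have k1 : |aeval x f| ≤ 1 / (N : ℝ) ^ 2 := hv2.trans hval
    refine k1.trans ?_
    rw [div_le_div_iff₀ (by positivity) (by positivity), one_mul]
    have k2 : mm f ≤ B * N := hm2.trans hmm
    have k3 : mm f ^ 2 ≤ (B * N) ^ 2 := pow_le_pow_left₀ (le_trans zero_le_one hmf) k2 2
    rw [mul_pow] at k3
    exact k3

end Pool.Agent.X124.MV
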