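import Mathlib
import Pool.Agent.X124.MV.Sharp

set_option autoImplicit false

/-!
Sharpness: rational points, and the passage to the proximity function.
-/

namespace Pool.Agent.X124.MV

open Polynomial Finset IntermediateField Pool.Agent.H813R3.Voj Pool.Agent.H990R4.VJ
  Pool.Agent.W226.VQ

lemma irr_lin (P : ℤ[X]) (hd : P.natDegree = 1) :
    Irreducible P.primPart ∧ P.primPart.natDegree = 1 := by
  have hpd : P.primPart.natDegree = 1 := by rw [natDegree_primPart]; exact hd
  refine ⟨⟨?_, ?_⟩, hpd⟩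
  · intro hu
    have := natDegree_eq_zero_of_isUnit hu
    omega
  · intro a b hab
    have hprim : P.primPart.IsPrimitive := P.isPrimitive_primPart
    have ha0 : a ≠ 0 := by
      rintro rfl; rw [zero_mul] at hab; exact hprim.ne_zero hab
    have hb0 : b ≠ 0 := by
      rintro rfl; rw [mul_zero] at hab; exact hprim.ne_zero hab
    have hdeg : a.natDegree + b.natDegree = 1 := by
      rw [← natDegree_mul ha0 hb0, ← hab, hpd]
    have key : ∀ c : ℤ[X], c ∣ P.primPart → c.natDegree = 0 → IsUnit c := by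
      intro c hc hc0
      rw [natDegree_eq_zero] at hc0
      obtain ⟨m, rfl⟩ := hc0
      exact (hprim m hc).map C
    rcases Nat.eq_zero_or_pos a.natDegree with h0 | h0
    · exact Or.inl (key a ⟨b, hab⟩ h0)
    · exact Or.inr (key b ⟨a, by rw [hab, mul_comm]⟩ (by omega))

/-- the value of a linear polynomial -/
lemma ev_lin_le (f : ℤ[X]) (hf : f.natDegree = 1) (x : ℝ) :
    |aeval x f| ≤ 4 * mm f * max 1 |x| := by
  have hev' : aeval x f = (f.coeff 1 : ℝ) * x + f.coeff 0 := by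
    rw [aeval_eq_sum_range' (n := 2) (by omega)]
    simp only [Finset.sum_range_succ, Finset.range_zero, Finset.sum_empty, zsmul_eq_mul]
    ring
  have h1 := coeff_le f 1
  have h2 := coeff_le f 0
  rw [hf, pow_one] at h1 h2
  have h1' : |(f.coeff 1 : ℝ)| ≤ 2 * mm f := by exact_mod_cast h1
  have h2' : |(f.coeff 0 : ℝ)| ≤ 2 * mm f := by exact_mod_cast h2
  have hm : (1 : ℝ) ≤ max 1 |x| := le_max_left _ _
  have hx : |x| ≤ max 1 |x| := le_max_right _ _
  have hmm : 0 ≤ mm f := mahlerMeasure_nonneg _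
  rw [hev']
  calc _ ≤ |(f.coeff 1 : ℝ) * x| + |(f.coeff 0 : ℝ)| := abs_add_le _ _
    _ = |(f.coeff 1 : ℝ)| * |x| + |(f.coeff 0 : ℝ)| * 1 := by rw [abs_mul, mul_one]
    _ ≤ 2 * mm f * max 1 |x| + 2 * mm f * max 1 |x| :=
        add_le_add (mul_le_mul h1' hx (abs_nonneg _) (by positivity))
          (mul_le_mul h2' hm zero_le_one (by positivity))
    _ = _ := by ring

/-- rational points that are close to a good point -/
theorem exists_lin {x : ℝ} (h1 : ∃ c : ℝ, 0 < c ∧ ∀ v : ℤ × ℤ, v.1 ≠ 0 →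
      c * (ln v : ℝ) ^ (-(1 + 1 / (((0 : ℕ) : ℝ) + 1))) ≤ |(v.1 : ℝ) * x + v.2|) :
    ∃ K : ℝ, 1 ≤ K ∧ ∀ R : ℝ, ∃ f : ℤ[X], Irreducible f ∧ f.natDegree = 1 ∧ R ≤ mm f ∧
      |aeval x f| ≤ K / mm f := by
  obtain ⟨c, hc, hlow⟩ := h1
  set B : ℝ := 3 * (|x| + 1) with hB
  have hx0 := abs_nonneg x
  have hB1 : 1 ≤ B := by rw [hB]; linarith
  refine ⟨B, hB1, fun R => ?_⟩
  obtain ⟨N, hN1, hN3⟩ : ∃ N : ℕ, 1 ≤ N ∧ (4 * |R| ^ 2 / c + 4 / c : ℝ) < N := by
    obtain ⟨N, hN⟩ := exists_nat_gt (max 1 (4 * |R| ^ 2 / c + 4 / c))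
    refine ⟨N, ?_, lt_of_le_of_lt (le_max_right _ _) hN⟩
    have := lt_of_le_of_lt (le_max_left _ _) hN
    exact_mod_cast this.le
  have hNr : (1 : ℝ) ≤ N := by exact_mod_cast hN1
  have hN0 : (0 : ℝ) < N := by linarith
  obtain ⟨j, k, hk0, hkN, hjk⟩ := Real.exists_int_int_abs_mul_sub_le x (n := N) (by omega)
  have hkr : (k : ℝ) ≤ N := by exact_mod_cast hkN
  have hk1 : (0 : ℝ) < k := by exact_mod_cast hk0
  set P : ℤ[X] := C k * X + C (-j) with hP
  have hPc1 : P.coeff 1 = k := by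
    rw [hP]
    simp only [coeff_add, coeff_C_mul, coeff_X, coeff_C]
    norm_num
  have hPc0 : P.coeff 0 = -j := by
    rw [hP]
    simp only [coeff_add, coeff_C_mul, coeff_X, coeff_C]
    norm_num
  have hPd : P.natDegree = 1 := by rw [hP]; exact natDegree_linear (by omega)
  have hP0 : P ≠ 0 := by intro h0; rw [h0] at hPd; simp at hPd
  have hPev : aeval x P = (k : ℝ) * x - j := by
    rw [hP]; simp; ring
  have hval0 : |aeval x P| ≤ 1 / ((N : ℝ) + 1) := by rw [hPev]; exact hjk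
  have hval : |aeval x P| ≤ 1 / (N : ℝ) := by
    refine hval0.trans ?_
    exact one_div_le_one_div_of_le hN0 (by linarith)
  have hj : |(j : ℝ)| ≤ (|x| + 1) * N := by
    have e1 : (j : ℝ) = k * x - ((k : ℝ) * x - j) := by ring
    rw [e1]
    have e2 : 1 / ((N : ℝ) + 1) ≤ N := by
      rw [div_le_iff₀ (by positivity)]
      nlinarith
    have e3 : |(k : ℝ) * x| ≤ N * |x| := by
      rw [abs_mul, abs_of_pos hk1]
      exact mul_le_mul_of_nonneg_right hkr hx0
    calc _ ≤ |(k : ℝ) * x| + |(k : ℝ) * x - j| := abs_sub _ _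
      _ ≤ N * |x| + N := by linarith
      _ = _ := by ring
  have hln : (ln (P.coeff 1, P.coeff 0) : ℝ) ≤ (|x| + 1) * N := by
    unfold ln
    rw [hPc1, hPc0, Int.natAbs_neg]
    have hab : ∀ a : ℤ, (a.natAbs : ℝ) = |(a : ℝ)| := by
      intro a
      rw [Nat.cast_natAbs]; push_cast; rfl
    push_cast
    apply max_le
    · rw [hab, abs_of_pos hk1]
      nlinarith
    · rw [hab]
      exact hj
  have hmm : mm P ≤ B * N := by
    have := (ln_mm P hPd).2
    rw [hB]; linarith
  obtain ⟨hirr, hdeg⟩ := irr_lin P hPd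
  obtain ⟨hm2, hv2⟩ := prim_small P hP0 x
  set f := P.primPart with hf
  have hmf := one_le_mm hirr.ne_zero
  refine ⟨f, hirr, hdeg, ?_, ?_⟩
  · by_contra hlt
    push Not at hlt
    have hlc : f.coeff 1 ≠ 0 := by
      rw [← hdeg, coeff_natDegree, leadingCoeff_ne_zero]; exact hirr.ne_zero
    have k1 := hlow (f.coeff 1, f.coeff 0) hlc
    simp only at k1
    have hev' : aeval x f = (f.coeff 1 : ℝ) * x + f.coeff 0 := by
      rw [aeval_eq_sum_range' (n := 2) (by omega)]
      simp only [Finset.sum_range_succ, Finset.range_zero, Finset.sum_empty, zsmul_eq_mul]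
      ring
    rw [← hev'] at k1
    have hl1 : (1 : ℝ) ≤ ln (f.coeff 1, f.coeff 0) := by
      have : 1 ≤ ln (f.coeff 1, f.coeff 0) := le_max_of_le_left (Int.natAbs_pos.2 hlc)
      exact_mod_cast this
    have k3 := (ln_mm f hdeg).1
    have e1 : (-(1 + 1 / (((0 : ℕ) : ℝ) + 1))) = (-(2 : ℕ) : ℝ) := by norm_num
    rw [e1, Real.rpow_neg (by linarith), Real.rpow_natCast] at k1
    have k4 : c * ((ln (f.coeff 1, f.coeff 0) : ℝ) ^ 2)⁻¹ ≤ 1 / (N : ℝ) :=
      k1.trans (hv2.trans hval)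
    rw [← div_eq_mul_inv, div_le_div_iff₀ (by positivity) (by positivity), one_mul] at k4
    have hR : (ln (f.coeff 1, f.coeff 0) : ℝ) ≤ 2 * |R| := by
      have := le_abs_self R
      linarith
    have k7 : (ln (f.coeff 1, f.coeff 0) : ℝ) ^ 2 ≤ 4 * |R| ^ 2 := by
      have := pow_le_pow_left₀ (by linarith : (0 : ℝ) ≤ ln (f.coeff 1, f.coeff 0)) hR 2
      calc _ ≤ (2 * |R|) ^ 2 := this
        _ = _ := by ring
    have k8 : 4 * |R| ^ 2 + 4 < N * c := by
      rw [← add_div, div_lt_iff₀ hc] at hN3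
      exact hN3
    linarith
  · refine (hv2.trans hval).trans ?_
    rw [div_le_div_iff₀ (by positivity) (by positivity), one_mul]
    exact hm2.trans hmm

/-- the sum over the other points -/
lemma sum_rest {q : ℕ} (i : Fin q) (g B : Fin q → ℝ) (T L : ℝ) (hi : g i ≤ T)
    (h : ∀ j, g j ≤ L + B j) (hB : ∀ j, 0 ≤ B j) :
    ∑ j, g j ≤ T + ((q : ℝ) - 1) * L + ∑ j, B j := by
  classical
  have hq1 : 1 ≤ q := by have := i.2; omega
  rw [← Finset.add_sum_erase _ _ (Finset.mem_univ i),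
    ← Finset.add_sum_erase (Finset.univ) B (Finset.mem_univ i)]
  have h1 : ∑ j ∈ Finset.univ.erase i, g j ≤ ∑ j ∈ Finset.univ.erase i, (L + B j) :=
    Finset.sum_le_sum fun j _ => h j
  rw [Finset.sum_add_distrib, Finset.sum_const, nsmul_eq_mul,
    Finset.card_erase_of_mem (Finset.mem_univ _), Finset.card_univ, Fintype.card_fin,
    Nat.cast_sub hq1, Nat.cast_one] at h1
  have := hB i
  linarith

/-- quadratic points with a large proximity -/
theorem quad_sharp {q : ℕ} {α : Fin q → ℝ} (h : Good α) (i : Fin q) :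
    ∃ C : ℝ, ∀ R : ℝ, ∃ (x : ℂ) (f : ℤ[X]), Irreducible f ∧ f.natDegree = 2 ∧ aeval x f = 0 ∧
      R ≤ Real.log (mm f) ∧ 3 * Real.log (mm f) - C ≤
      ((f.map (Int.castRingHom ℂ)).roots.map fun z =>
        ∑ j, Real.log (max 1 ‖z‖ * max 1 |α j| / ‖z - (α j : ℂ)‖)).sum := by
  obtain ⟨K, hK, hex⟩ := exists_quad ((h.2 1).2.1 i) ((h.2 0).1 i)
  obtain ⟨D, hD⟩ := sum_quad h 1 one_pos
  set A : ℝ := ∑ j, Real.log (max 1 |α j|) with hA
  refine ⟨Real.log K + q * Real.log 12, fun R => ?_⟩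
  obtain ⟨f, hirr, hdeg, hR, hval⟩ := hex (Real.exp R)
  have hm1 := one_le_mm hirr.ne_zero
  have hm : 0 < mm f := by linarith
  obtain ⟨h0, -⟩ := hD (cu f) (not_sq hirr hdeg)
  have hev : ∀ j, aeval (α j) f ≠ 0 := fun j => by rw [← ev_cu f hdeg.le]; exact h0 j
  have hroot : ∃ x : ℂ, aeval x f = 0 := by
    have hd : (f.map (Int.castRingHom ℂ)).degree ≠ 0 := by
      rw [degree_map_eq_of_injective (RingHom.injective_int _), degree_eq_natDegree hirr.ne_zero,
        hdeg]
      norm_num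
    obtain ⟨x, hx⟩ := IsAlgClosed.exists_root _ hd
    refine ⟨x, ?_⟩
    rw [IsRoot.def, eval_map] at hx
    rw [aeval_def]
    exact hx
  obtain ⟨x, hx⟩ := hroot
  refine ⟨x, f, hirr, hdeg, hx, ?_, ?_⟩
  · rw [Real.le_log_iff_exp_le hm]; exact hR
  · rw [prox_sum f hirr.ne_zero α hev, ← hA]
    have hb : ∀ j, 0 < max 1 |α j| := fun j => lt_of_lt_of_le one_pos (le_max_left _ _)
    have k1 : Real.log |aeval (α i) f| ≤ Real.log K - 2 * Real.log (mm f) := by
      have := Real.log_le_log (abs_pos.2 (hev i)) hval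
      rw [Real.log_div (by positivity) (by positivity), Real.log_pow] at this
      push_cast at this
      exact this
    have k2 : ∀ j, Real.log |aeval (α j) f| ≤ Real.log (mm f) +
        (Real.log 12 + 2 * Real.log (max 1 |α j|)) := by
      intro j
      have h1 := Real.log_le_log (abs_pos.2 (hev j)) (ev_le f hdeg (α j))
      rw [Real.log_mul (by positivity) (by have := hb j; positivity),
        Real.log_mul (by norm_num) hm.ne', Real.log_pow] at h1
      push_cast at h1
      linarith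
    have k3 := sum_rest i (fun j => Real.log |aeval (α j) f|)
      (fun j => Real.log 12 + 2 * Real.log (max 1 |α j|)) _ _ k1 k2 (by
        intro j
        have h1 : 0 ≤ Real.log 12 := Real.log_nonneg (by norm_num)
        have h2 : 0 ≤ Real.log (max 1 |α j|) := Real.log_nonneg (le_max_left _ _)
        positivity)
    rw [Finset.sum_add_distrib, Finset.sum_const, nsmul_eq_mul, Finset.card_univ,
      Fintype.card_fin, ← Finset.mul_sum, ← hA] at k3
    rw [hdeg]
    push_cast
    linarith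

/-- rational points with a large proximity -/
theorem lin_sharp {q : ℕ} {α : Fin q → ℝ} (h : Good α) (i : Fin q) :
    ∃ C : ℝ, ∀ R : ℝ, ∃ (x : ℂ) (f : ℤ[X]), Irreducible f ∧ f.natDegree = 1 ∧ aeval x f = 0 ∧
      R ≤ Real.log (mm f) ∧ 2 * Real.log (mm f) - C ≤
      ((f.map (Int.castRingHom ℂ)).roots.map fun z =>
        ∑ j, Real.log (max 1 ‖z‖ * max 1 |α j| / ‖z - (α j : ℂ)‖)).sum := by
  obtain ⟨K, hK, hex⟩ := exists_lin ((h.2 0).2.1 i)
  obtain ⟨D, hD⟩ := lin_pt h 1 one_pos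
  set A : ℝ := ∑ j, Real.log (max 1 |α j|) with hA
  refine ⟨Real.log K + q * Real.log 4, fun R => ?_⟩
  obtain ⟨f, hirr, hdeg, hR, hval⟩ := hex (Real.exp R)
  have hm1 := one_le_mm hirr.ne_zero
  have hm : 0 < mm f := by linarith
  obtain ⟨hev, -⟩ := hD f hdeg
  have hroot : ∃ x : ℂ, aeval x f = 0 := by
    have hd : (f.map (Int.castRingHom ℂ)).degree ≠ 0 := by
      rw [degree_map_eq_of_injective (RingHom.injective_int _), degree_eq_natDegree hirr.ne_zero,
        hdeg]
      norm_num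
    obtain ⟨x, hx⟩ := IsAlgClosed.exists_root _ hd
    refine ⟨x, ?_⟩
    rw [IsRoot.def, eval_map] at hx
    rw [aeval_def]
    exact hx
  obtain ⟨x, hx⟩ := hroot
  refine ⟨x, f, hirr, hdeg, hx, ?_, ?_⟩
  · rw [Real.le_log_iff_exp_le hm]; exact hR
  · rw [prox_sum f hirr.ne_zero α hev, ← hA]
    have hb : ∀ j, 0 < max 1 |α j| := fun j => lt_of_lt_of_le one_pos (le_max_left _ _)
    have k1 : Real.log |aeval (α i) f| ≤ Real.log K - Real.log (mm f) := by
      have := Real.log_le_log (abs_pos.2 (hev i)) hval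
      rw [Real.log_div (by positivity) (by positivity)] at this
      exact this
    have k2 : ∀ j, Real.log |aeval (α j) f| ≤ Real.log (mm f) +
        (Real.log 4 + Real.log (max 1 |α j|)) := by
      intro j
      have h1 := Real.log_le_log (abs_pos.2 (hev j)) (ev_lin_le f hdeg (α j))
      rw [Real.log_mul (by positivity) (hb j).ne', Real.log_mul (by norm_num) hm.ne'] at h1
      linarith
    have k3 := sum_rest i (fun j => Real.log |aeval (α j) f|)
      (fun j => Real.log 4 + Real.log (max 1 |α j|)) _ _ k1 k2 (by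
        intro j
        have h1 : 0 ≤ Real.log 4 := Real.log_nonneg (by norm_num)
        have h2 : 0 ≤ Real.log (max 1 |α j|) := Real.log_nonneg (le_max_left _ _)
        positivity)
    rw [Finset.sum_add_distrib, Finset.sum_const, nsmul_eq_mul, Finset.card_univ,
      Fintype.card_fin, ← hA] at k3
    rw [hdeg]
    push_cast
    linarith

/-- the logarithmic discriminant of a rational point -/
lemma lD_lin (f : ℤ[X]) (hdeg : f.natDegree = 1) (x : ℂ) (hx : aeval x f = 0) : lD x = 0 := by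
  have hf0 : f ≠ 0 := by rintro rfl; simp at hdeg
  have hlc : f.coeff 1 ≠ 0 := by
    rw [← hdeg, coeff_natDegree, leadingCoeff_ne_zero]; exact hf0
  have hlcC : (f.coeff 1 : ℂ) ≠ 0 := by exact_mod_cast hlc
  have hev' : aeval x f = (f.coeff 1 : ℂ) * x + f.coeff 0 := by
    rw [aeval_eq_sum_range' (n := 2) (by omega)]
    simp only [Finset.sum_range_succ, Finset.range_zero, Finset.sum_empty, zsmul_eq_mul]
    ring
  rw [hev'] at hx
  have hxr : x = algebraMap ℚ ℂ (-(f.coeff 0 : ℚ) / f.coeff 1) := by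
    have : x = -(f.coeff 0 : ℂ) / f.coeff 1 := by
      field_simp
      linear_combination hx
    rw [this]
    simp
  have hbot : ℚ⟮x⟯ = ⊥ := by
    rw [adjoin_simple_eq_bot_iff, IntermediateField.mem_bot]
    exact ⟨_, hxr.symm⟩
  unfold lD
  rw [hbot]
  split_ifs with hnf
  · have h1 : NumberField.discr (⊥ : IntermediateField ℚ ℂ) = 1 := by
      rw [NumberField.discr_eq_discr_of_ringEquiv (L := ℚ) _ (botEquiv ℚ ℂ).toRingEquiv,
        NumberField.discr_rat]
    rw [h1]
    simp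
  · rfl

end Pool.Agent.X124.MV
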